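import Pool.Agent.W_MP_654ec6.C.Defs

/-!
# Parts C and L: the smooth concave minimum

`kap` is the smooth concave function `κ` with `κ(x) = x` for `x ≤ 1/2` and `κ(x) = 1` for
`x ≥ 3/2`, and `mm u v = v κ(u / v)` is a smooth, concave, `1`-homogeneous minimum of `u ≥ 0` and
`v > 0`.
-/

open scoped ContDiff Topology
open Filter Set

namespace Pool.Agent.W_MP_654ec6

/-- The derivative of `κ`. -/
noncomputable def kapD (x : ℝ) : ℝ := 1 - Real.smoothTransition (x - 1 / 2)

theorem smoothTransition_add_symm (x : ℝ) :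
    Real.smoothTransition x + Real.smoothTransition (1 - x) = 1 := by
  have h := Real.smoothTransition.pos_denom x
  have h' : expNegInvGlue (1 - x) + expNegInvGlue (1 - (1 - x)) ≠ 0 := by
    rw [sub_sub_cancel, add_comm]; exact h.ne'
  rw [Real.smoothTransition, Real.smoothTransition]
  have h2 : (1 : ℝ) - (1 - x) = x := by ring
  rw [h2] at h' ⊢
  have h3 := h.ne'
  field_simp
  ring

theorem continuous_stsub : Continuous fun u : ℝ => Real.smoothTransition (u - 1 / 2) :=
  Real.smoothTransition.continuous.comp (continuous_id.sub continuous_const)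

theorem hasDerivAt_kap (x : ℝ) : HasDerivAt kap (kapD x) x := by
  have hc := continuous_stsub
  exact (hasDerivAt_id x).sub (intervalIntegral.integral_hasDerivAt_right
    (hc.intervalIntegrable _ _) (hc.stronglyMeasurableAtFilter _ _) hc.continuousAt)

theorem deriv_kap : deriv kap = kapD := funext fun x => (hasDerivAt_kap x).deriv

theorem contDiff_kapD : ContDiff ℝ ∞ kapD :=
  contDiff_const.sub (Real.smoothTransition.contDiff.comp (contDiff_id.sub contDiff_const))

theorem contDiff_kap : ContDiff ℝ ∞ kap := by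
  have h : ContDiff ℝ (∞ + 1) kap := by
    refine contDiff_succ_iff_deriv.2 ⟨fun x => (hasDerivAt_kap x).differentiableAt, by simp, ?_⟩
    rw [deriv_kap]
    exact contDiff_kapD
  exact h

theorem kapD_nonneg (x : ℝ) : 0 ≤ kapD x := by
  have := Real.smoothTransition.le_one (x - 1 / 2)
  unfold kapD
  linarith

theorem kapD_le_one (x : ℝ) : kapD x ≤ 1 := by
  have := Real.smoothTransition.nonneg (x - 1 / 2)
  unfold kapD
  linarith

theorem kapD_of_le {x : ℝ} (h : x ≤ 1 / 2) : kapD x = 1 := by
  unfold kapD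
  rw [Real.smoothTransition.zero_of_nonpos (by linarith), sub_zero]

theorem kapD_of_ge {x : ℝ} (h : 3 / 2 ≤ x) : kapD x = 0 := by
  unfold kapD
  rw [Real.smoothTransition.one_of_one_le (by linarith), sub_self]

theorem kapD_antitone : Antitone kapD := by
  intro x y h
  unfold kapD
  have := Real.smoothTransition.monotone (show x - 1 / 2 ≤ y - 1 / 2 by linarith)
  linarith

theorem kap_monotone : Monotone kap :=
  monotone_of_hasDerivAt_nonneg hasDerivAt_kap kapD_nonneg

theorem kap_of_le {x : ℝ} (h : x ≤ 1 / 2) : kap x = x := by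
  unfold kap
  have h0 : ∫ u in (0 : ℝ)..x, Real.smoothTransition (u - 1 / 2) = ∫ _u in (0 : ℝ)..x, (0 : ℝ) := by
    refine intervalIntegral.integral_congr fun u hu => ?_
    have hu2 : u ≤ 1 / 2 := by
      rcases Set.mem_uIcc.1 hu with h1 | h1
      · exact h1.2.trans h
      · linarith [h1.2]
    exact Real.smoothTransition.zero_of_nonpos (by linarith)
  rw [h0]
  simp

theorem kap_zero : kap 0 = 0 := kap_of_le (by norm_num)

theorem integral_smoothTransition : ∫ u in (0 : ℝ)..1, Real.smoothTransition u = 1 / 2 := by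
  have hc : Continuous Real.smoothTransition := Real.smoothTransition.continuous
  have h1 : ∫ u in (0 : ℝ)..1, Real.smoothTransition (1 - u)
      = ∫ u in (0 : ℝ)..1, Real.smoothTransition u := by
    rw [intervalIntegral.integral_comp_sub_left (fun u => Real.smoothTransition u) 1]
    norm_num
  have h2 : ∫ u in (0 : ℝ)..1, (Real.smoothTransition u + Real.smoothTransition (1 - u))
      = ∫ _u in (0 : ℝ)..1, (1 : ℝ) :=
    intervalIntegral.integral_congr fun u _ => smoothTransition_add_symm u
  have hc2 : Continuous fun u : ℝ => Real.smoothTransition (1 - u) :=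
    hc.comp (continuous_const.sub continuous_id)
  rw [intervalIntegral.integral_add (hc.intervalIntegrable _ _) (hc2.intervalIntegrable _ _),
    h1] at h2
  simp only [intervalIntegral.integral_const, sub_zero, smul_eq_mul, mul_one] at h2
  linarith

theorem kap_three_half : kap (3 / 2) = 1 := by
  unfold kap
  have hc : Continuous Real.smoothTransition := Real.smoothTransition.continuous
  have h1 : ∫ u in (0 : ℝ)..(3 / 2), Real.smoothTransition (u - 1 / 2)
      = ∫ u in (-(1 / 2) : ℝ)..1, Real.smoothTransition u := by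
    rw [intervalIntegral.integral_comp_sub_right (fun u => Real.smoothTransition u) (1 / 2)]
    norm_num
  have h2 : ∫ u in (-(1 / 2) : ℝ)..0, Real.smoothTransition u
      = ∫ _u in (-(1 / 2) : ℝ)..0, (0 : ℝ) := by
    refine intervalIntegral.integral_congr fun u hu => ?_
    have hu2 : u ≤ 0 := by
      rcases Set.mem_uIcc.1 hu with h1 | h1
      · exact h1.2
      · linarith [h1.2]
    exact Real.smoothTransition.zero_of_nonpos hu2
  rw [h1, ← intervalIntegral.integral_add_adjacent_intervals (hc.intervalIntegrable _ 0)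
    (hc.intervalIntegrable _ _), h2, integral_smoothTransition]
  norm_num

theorem kap_of_ge {x : ℝ} (h : 3 / 2 ≤ x) : kap x = 1 := by
  have h1 : kap x - kap (3 / 2) = ∫ u in (3 / 2 : ℝ)..x, kapD u :=
    (intervalIntegral.integral_eq_sub_of_hasDerivAt (fun u _ => hasDerivAt_kap u)
      (contDiff_kapD.continuous.intervalIntegrable _ _)).symm
  have h2 : ∫ u in (3 / 2 : ℝ)..x, kapD u = ∫ _u in (3 / 2 : ℝ)..x, (0 : ℝ) := by
    refine intervalIntegral.integral_congr fun u hu => ?_
    rw [Set.uIcc_of_le h] at hu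
    exact kapD_of_ge hu.1
  rw [h2, kap_three_half] at h1
  simp only [intervalIntegral.integral_zero] at h1
  linarith

theorem kap_le_one (x : ℝ) : kap x ≤ 1 := by
  have h := kap_monotone (le_max_left x (3 / 2))
  rwa [kap_of_ge (le_max_right x (3 / 2))] at h

/-- The function `κ - x κ'`. -/
noncomputable def kapE (x : ℝ) : ℝ := kap x - x * kapD x

theorem hasDerivAt_kapD (x : ℝ) : HasDerivAt kapD (deriv kapD x) x :=
  (contDiff_kapD.differentiable (by simp) x).hasDerivAt

theorem deriv_kapD_nonpos (x : ℝ) : deriv kapD x ≤ 0 := kapD_antitone.deriv_nonpos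

theorem hasDerivAt_kapE (x : ℝ) : HasDerivAt kapE (-(x * deriv kapD x)) x := by
  have h := (hasDerivAt_kap x).sub ((hasDerivAt_id x).mul (hasDerivAt_kapD x))
  refine h.congr_deriv ?_
  simp only [id_eq]
  ring

theorem kapE_mono {x y : ℝ} (hx : 0 ≤ x) (hxy : x ≤ y) : kapE x ≤ kapE y := by
  have h : MonotoneOn kapE (Set.Ici 0) := by
    refine monotoneOn_of_deriv_nonneg (convex_Ici 0)
      (fun z _ => (hasDerivAt_kapE z).continuousAt.continuousWithinAt)
      (fun z _ => (hasDerivAt_kapE z).differentiableAt.differentiableWithinAt) fun z hz => ?_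
    rw [interior_Ici] at hz
    rw [(hasDerivAt_kapE z).deriv]
    have := mul_nonpos_of_nonneg_of_nonpos (le_of_lt hz) (deriv_kapD_nonpos z)
    linarith
  exact h hx (hx.trans hxy) hxy

theorem kapE_nonneg {x : ℝ} (hx : 0 ≤ x) : 0 ≤ kapE x := by
  have h := kapE_mono le_rfl hx
  unfold kapE at h ⊢
  rw [kap_zero] at h
  linarith

theorem kapE_le_one {x : ℝ} (hx : 0 ≤ x) : kapE x ≤ 1 := by
  have h := kapE_mono hx (le_max_left x (3 / 2))
  have h2 : kapE (max x (3 / 2)) = 1 := by
    unfold kapE
    rw [kap_of_ge (le_max_right _ _), kapD_of_ge (le_max_right _ _)]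
    ring
  rwa [h2] at h

theorem kap_le_self {x : ℝ} : kap x ≤ x := by
  rcases le_total x 0 with h | h
  · exact (kap_of_le (by linarith)).le
  · have hh : Monotone fun z => z - kap z :=
      monotone_of_hasDerivAt_nonneg (fun z => (hasDerivAt_id z).sub (hasDerivAt_kap z))
        fun z => by have := kapD_le_one z; simp only [Pi.zero_apply]; linarith
    have := hh h
    simp only [kap_zero] at this
    linarith

theorem kap_pos {x : ℝ} (hx : 0 < x) : 0 < kap x := by
  have h := kap_monotone (min_le_left x (1 / 2))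
  rw [kap_of_le (min_le_right _ _)] at h
  have : 0 < min x (1 / 2) := lt_min hx (by norm_num)
  linarith

theorem kap_nonneg {x : ℝ} (hx : 0 ≤ x) : 0 ≤ kap x := by
  have h := kap_monotone hx
  rwa [kap_zero] at h

/-! ## The smooth minimum -/

theorem mm_of_le {u v : ℝ} (hv : 0 < v) (h : u ≤ v / 2) : mm u v = u := by
  unfold mm
  rw [kap_of_le (by rw [div_le_iff₀ hv]; linarith)]
  field_simp

theorem mm_of_ge {u v : ℝ} (hv : 0 < v) (h : 3 / 2 * v ≤ u) : mm u v = v := by
  unfold mm
  rw [kap_of_ge (by rw [le_div_iff₀ hv]; linarith), mul_one]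

theorem mm_le_left {u v : ℝ} (hv : 0 < v) : mm u v ≤ u := by
  unfold mm
  have h : v * kap (u / v) ≤ v * (u / v) := mul_le_mul_of_nonneg_left kap_le_self hv.le
  have h2 : v * (u / v) = u := by field_simp
  linarith

theorem mm_le_right {u v : ℝ} (hv : 0 ≤ v) : mm u v ≤ v := by
  unfold mm
  have h : v * kap (u / v) ≤ v * 1 := mul_le_mul_of_nonneg_left (kap_le_one _) hv
  linarith

theorem mm_pos {u v : ℝ} (hu : 0 < u) (hv : 0 < v) : 0 < mm u v :=
  mul_pos hv (kap_pos (div_pos hu hv))

theorem mm_nonneg {u v : ℝ} (hu : 0 ≤ u) (hv : 0 ≤ v) : 0 ≤ mm u v :=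
  mul_nonneg hv (kap_nonneg (div_nonneg hu hv))

theorem mm_smul {s : ℝ} (hs : s ≠ 0) (u v : ℝ) : mm (s * u) (s * v) = s * mm u v := by
  unfold mm
  rw [mul_div_mul_left _ _ hs]
  ring

/-- Euler's relation: `m = κ' u + (κ - x κ') v`. -/
theorem mm_euler {u v : ℝ} (hv : v ≠ 0) : mm u v = kapD (u / v) * u + kapE (u / v) * v := by
  unfold mm kapE
  field_simp
  ring

theorem mm_mono_left {u u' v : ℝ} (hv : 0 < v) (h : u ≤ u') : mm u v ≤ mm u' v :=
  mul_le_mul_of_nonneg_left (kap_monotone (div_le_div_of_nonneg_right h hv.le)) hv.le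

/-- First derivative of a smooth minimum of two functions of one variable. -/
theorem hasDerivAt_mm {u v : ℝ → ℝ} {u' v' t : ℝ} (hu : HasDerivAt u u' t)
    (hv : HasDerivAt v v' t) (h0 : v t ≠ 0) :
    HasDerivAt (fun s => mm (u s) (v s))
      (kapD (u t / v t) * u' + kapE (u t / v t) * v') t := by
  have h1 : HasDerivAt (fun s => u s / v s) ((u' * v t - u t * v') / v t ^ 2) t := hu.div hv h0
  have h2 : HasDerivAt (fun s => kap (u s / v s))
      (kapD (u t / v t) * ((u' * v t - u t * v') / v t ^ 2)) t :=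
    (hasDerivAt_kap _).comp t h1
  refine (hv.mul h2).congr_deriv ?_
  unfold kapE
  field_simp
  ring

/-- Second derivative of a smooth minimum of two functions of one variable. -/
theorem hasDerivAt_mm' {u v u' v' : ℝ → ℝ} {u'' v'' t : ℝ} (hu : HasDerivAt u (u' t) t)
    (hv : HasDerivAt v (v' t) t) (hu' : HasDerivAt u' u'' t) (hv' : HasDerivAt v' v'' t)
    (h0 : v t ≠ 0) :
    HasDerivAt (fun s => kapD (u s / v s) * u' s + kapE (u s / v s) * v' s)
      (kapD (u t / v t) * u'' + kapE (u t / v t) * v'' +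
        deriv kapD (u t / v t) / v t * (u' t - u t / v t * v' t) ^ 2) t := by
  have h1 : HasDerivAt (fun s => u s / v s) ((u' t * v t - u t * v' t) / v t ^ 2) t := hu.div hv h0
  have h2 : HasDerivAt (fun s => kapD (u s / v s))
      (deriv kapD (u t / v t) * ((u' t * v t - u t * v' t) / v t ^ 2)) t :=
    (hasDerivAt_kapD _).comp t h1
  have h3 : HasDerivAt (fun s => kapE (u s / v s))
      (-(u t / v t * deriv kapD (u t / v t)) * ((u' t * v t - u t * v' t) / v t ^ 2)) t :=
    (hasDerivAt_kapE _).comp t h1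
  refine ((h2.mul hu').add (h3.mul hv')).congr_deriv ?_
  field_simp
  ring

theorem contDiffAt_mm {E : Type*} [NormedAddCommGroup E] [NormedSpace ℝ E] {u v : E → ℝ} {x : E}
    {n : WithTop ℕ∞} (hn : n ≤ ∞) (hu : ContDiffAt ℝ n u x) (hv : ContDiffAt ℝ n v x)
    (h0 : v x ≠ 0) : ContDiffAt ℝ n (fun y => mm (u y) (v y)) x :=
  hv.mul ((contDiff_kap.of_le hn).contDiffAt.comp x (hu.div hv h0))

end Pool.Agent.W_MP_654ec6
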