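import Pool.Agent.W_MP_654ec6.L.EtaH
import Pool.Agent.W_MP_654ec6.L.Kap

/-!
# Part L, file 1: the profile of a link

`a_l < c < a_r` are slopes in `[0, 1/10]`, `Rp = R √(1 + c²)`. The profile of the link of a vertex
is `f = m(E, D)` on `[φ_r, φ_l]`, with `D = R (sin φ - c cos φ)` and `E = sin(φ - φ_r)` or
`sin(φ_l - φ)`.
-/

open scoped ContDiff Topology
open Filter Set Real

namespace Pool.Agent.W_MP_654ec6

/-- The parameters of a link. -/
structure LinkPar (al c ar R : ℝ) : Prop where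
  al_nonneg : 0 ≤ al
  al_lt : al < c
  lt_ar : c < ar
  ar_le : ar ≤ 1 / 10
  R_pos : 0 < R
  R_le : R ≤ 1 / 9

/-- The maximal radius `R' = R √(1 + c²)`. -/
noncomputable def lRp (c R : ℝ) : ℝ := R * √(1 + c ^ 2)

/-- `D = R (sin φ - c cos φ)`. -/
noncomputable def lD (c R φ : ℝ) : ℝ := R * (sin φ - c * cos φ)

/-- `E = sin (φ - arctan a)`. -/
noncomputable def lE (a φ : ℝ) : ℝ := (sin φ - a * cos φ) / √(1 + a ^ 2)

/-- The function `E` of a link. -/
noncomputable def lEE (al ar φ : ℝ) : ℝ := if φ ≤ π / 2 then lE ar φ else lE al φ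

/-- The profile of a link. -/
theorem linkf_eq (R al c ar φ : ℝ) : linkf R al c ar φ = mm (lEE al ar φ) (lD c R φ) := rfl

theorem lE_eq (a φ : ℝ) : lE a φ = sin (φ - arctan a) := by
  unfold lE
  rw [sin_sub, cos_arctan, sin_arctan]
  have h : 0 < √(1 + a ^ 2) := Real.sqrt_pos.2 (by positivity)
  field_simp

theorem lD_eq (c R φ : ℝ) : lD c R φ = lRp c R * sin (φ - arctan c) := by
  unfold lD lRp
  rw [← lE_eq, lE]
  have h : 0 < √(1 + c ^ 2) := Real.sqrt_pos.2 (by positivity)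
  field_simp

theorem hasDerivAt_lE (a φ : ℝ) : HasDerivAt (lE a) (cos (φ - arctan a)) φ := by
  have h : lE a = fun φ => sin (φ - arctan a) := funext fun φ => lE_eq a φ
  rw [h]
  exact ((hasDerivAt_id φ).sub_const (arctan a)).sin.congr_deriv (by simp)

theorem hasDerivAt_lE' (a φ : ℝ) :
    HasDerivAt (fun φ => cos (φ - arctan a)) (-lE a φ) φ := by
  rw [lE_eq]
  exact ((hasDerivAt_id φ).sub_const (arctan a)).cos.congr_deriv (by simp)

theorem hasDerivAt_lD (c R φ : ℝ) :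
    HasDerivAt (lD c R) (lRp c R * cos (φ - arctan c)) φ := by
  have h : lD c R = fun φ => lRp c R * sin (φ - arctan c) := funext fun φ => lD_eq c R φ
  rw [h]
  exact (((hasDerivAt_id φ).sub_const (arctan c)).sin.congr_deriv (by simp)).const_mul _

theorem hasDerivAt_lD' (c R φ : ℝ) :
    HasDerivAt (fun φ => lRp c R * cos (φ - arctan c)) (-lD c R φ) φ := by
  rw [lD_eq]
  refine ((((hasDerivAt_id φ).sub_const (arctan c)).cos.congr_deriv
    (by simp)).const_mul (lRp c R) : HasDerivAt _ (lRp c R * -sin (φ - arctan c)) φ).congr_deriv ?_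
  ring

theorem contDiff_lE (a : ℝ) : ContDiff ℝ ∞ (lE a) := by
  unfold lE
  exact (Real.contDiff_sin.sub (contDiff_const.mul Real.contDiff_cos)).div_const _

theorem contDiff_lD (c R : ℝ) : ContDiff ℝ ∞ (lD c R) := by
  unfold lD
  exact contDiff_const.mul (Real.contDiff_sin.sub (contDiff_const.mul Real.contDiff_cos))

theorem arctan_lt_self' {x : ℝ} (hx : 0 < x) : arctan x < x := by
  have h := Real.lt_tan (Real.arctan_pos.2 hx) (Real.arctan_lt_pi_div_two x)
  rwa [Real.tan_arctan] at h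

namespace LinkPar

variable {al c ar R : ℝ} (h : LinkPar al c ar R)

include h

theorem c_pos : 0 < c := lt_of_le_of_lt h.al_nonneg h.al_lt

theorem ar_pos : 0 < ar := h.c_pos.trans h.lt_ar

theorem Rp_pos : 0 < lRp c R := mul_pos h.R_pos (Real.sqrt_pos.2 (by positivity))

theorem c_lt : c < 1 / 10 := lt_of_lt_of_le h.lt_ar h.ar_le

theorem Rp_lt : lRp c R < 1 / 8 := by
  have h1 : √(1 + c ^ 2) < 9 / 8 := by
    rw [Real.sqrt_lt' (by norm_num)]
    nlinarith [h.c_pos, h.c_lt]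
  have h2 : R * √(1 + c ^ 2) ≤ 1 / 9 * √(1 + c ^ 2) :=
    mul_le_mul_of_nonneg_right h.R_le (Real.sqrt_nonneg _)
  unfold lRp
  linarith

theorem R_le_Rp : R ≤ lRp c R := by
  have h1 : 1 ≤ √(1 + c ^ 2) := by
    rw [Real.one_le_sqrt]
    nlinarith [h.c_pos]
  unfold lRp
  nlinarith [h.R_pos]

theorem arctan_c_lt : arctan c < 1 / 10 := by
  have := arctan_lt_self' h.c_pos
  linarith [h.c_lt]

theorem arctan_ar_lt : arctan ar < 1 / 10 := by
  have := arctan_lt_self' h.ar_pos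
  linarith [h.ar_le]

theorem arctan_al_nonneg : 0 ≤ arctan al := by
  rw [← arctan_zero]
  exact arctan_strictMono.monotone h.al_nonneg

theorem arctan_al_lt : arctan al < arctan c := arctan_strictMono h.al_lt

theorem arctan_c_lt_ar : arctan c < arctan ar := arctan_strictMono h.lt_ar

theorem arctan_c_pos : 0 < arctan c := arctan_pos.2 h.c_pos

theorem lD_pos {φ : ℝ} (h1 : arctan ar ≤ φ) (h2 : φ ≤ π + arctan al) : 0 < lD c R φ := by
  rw [lD_eq]
  exact mul_pos h.Rp_pos (sin_pos_of_pos_of_lt_pi (by linarith [h.arctan_c_lt_ar])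
    (by linarith [h.arctan_al_lt]))

theorem lD_le (φ : ℝ) : lD c R φ ≤ lRp c R := by
  rw [lD_eq]
  have := mul_le_mul_of_nonneg_left (sin_le_one (φ - arctan c)) h.Rp_pos.le
  linarith

theorem lE_pos_r {φ : ℝ} (h1 : arctan ar < φ) (h2 : φ ≤ π / 2) : 0 < lE ar φ := by
  rw [lE_eq]
  exact sin_pos_of_pos_of_lt_pi (by linarith)
    (by linarith [arctan_pos.2 h.ar_pos, pi_pos])

theorem lE_pos_l {φ : ℝ} (h1 : π / 2 ≤ φ) (h2 : φ < π + arctan al) : 0 < lE al φ := by
  rw [lE_eq]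
  exact sin_pos_of_pos_of_lt_pi (by linarith [h.arctan_al_lt, h.arctan_c_lt, pi_gt_three])
    (by linarith)

/-- In the middle both `E`s are large. -/
theorem mid_ge {a φ : ℝ} (ha : 0 ≤ arctan a) (ha' : arctan a < 1 / 10)
    (h1 : π / 2 - 1 / 10 ≤ φ) (h2 : φ ≤ π / 2 + 1 / 5) : 3 / 2 * lD c R φ ≤ lE a φ := by
  have h3 : cos (1 / 5) ≤ lE a φ := by
    rw [lE_eq, ← sin_pi_div_two_sub]
    have hpi := pi_gt_three
    rcases le_total (φ - arctan a) (π / 2) with h4 | h4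
    · exact sin_le_sin_of_le_of_le_pi_div_two (by linarith) h4 (by linarith)
    · rw [← sin_pi_sub (φ - arctan a)]
      exact sin_le_sin_of_le_of_le_pi_div_two (by linarith) (by linarith) (by linarith)
  have h4 : 1 - (1 / 5) ^ 2 / 2 ≤ cos (1 / 5) := one_sub_sq_div_two_le_cos
  have h5 := h.lD_le φ
  have h6 := h.Rp_lt
  norm_num at h4
  linarith

theorem lEE_pos {φ : ℝ} (h1 : arctan ar < φ) (h2 : φ < π + arctan al) : 0 < lEE al ar φ := by
  unfold lEE
  split_ifs with h3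
  · exact h.lE_pos_r h1 h3
  · exact h.lE_pos_l (not_le.1 h3).le h2

theorem linkf_mid {φ : ℝ} (h1 : π / 2 - 1 / 10 ≤ φ) (h2 : φ ≤ π / 2 + 1 / 5) :
    linkf R al c ar φ = lD c R φ := by
  have hpi := pi_gt_three
  have hD := h.lD_pos (φ := φ) (by linarith [h.arctan_ar_lt]) (by linarith [h.arctan_al_nonneg])
  rw [linkf_eq]
  unfold lEE
  split_ifs
  · exact mm_of_ge hD (h.mid_ge (arctan_pos.2 h.ar_pos).le h.arctan_ar_lt h1 h2)
  · exact mm_of_ge hD (h.mid_ge h.arctan_al_nonneg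
      (h.arctan_al_lt.trans h.arctan_c_lt) h1 h2)

/-- The local form of the profile. -/
theorem linkf_local {φ : ℝ} (h1 : arctan ar < φ) (h2 : φ < π + arctan al) :
    ∃ a : ℝ, 0 ≤ arctan a ∧ arctan a < 1 / 10 ∧ 0 < lE a φ ∧ lEE al ar φ = lE a φ ∧
      linkf R al c ar =ᶠ[𝓝 φ] fun ψ => mm (lE a ψ) (lD c R ψ) := by
  have hpi := pi_gt_three
  have ha := (arctan_pos.2 h.ar_pos).le
  rcases lt_trichotomy φ (π / 2) with h3 | h3 | h3
  · refine ⟨ar, ha, h.arctan_ar_lt, h.lE_pos_r h1 h3.le, if_pos h3.le, ?_⟩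
    filter_upwards [Iio_mem_nhds h3] with ψ hψ
    rw [linkf_eq]
    unfold lEE
    rw [if_pos (le_of_lt hψ)]
  · refine ⟨ar, ha, h.arctan_ar_lt, h.lE_pos_r h1 h3.le, if_pos h3.le, ?_⟩
    have h4 : Ioo (π / 2 - 1 / 10) (π / 2 + 1 / 5) ∈ 𝓝 φ := by
      rw [h3]
      exact Ioo_mem_nhds (by linarith) (by linarith)
    filter_upwards [h4] with ψ hψ
    have hD := h.lD_pos (φ := ψ) (by linarith [h.arctan_ar_lt, hψ.1])
      (by linarith [h.arctan_al_nonneg, hψ.2])
    rw [h.linkf_mid hψ.1.le hψ.2.le, mm_of_ge hD (h.mid_ge ha h.arctan_ar_lt hψ.1.le hψ.2.le)]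
  · refine ⟨al, h.arctan_al_nonneg, h.arctan_al_lt.trans h.arctan_c_lt,
      h.lE_pos_l h3.le h2, if_neg (not_le.2 h3), ?_⟩
    filter_upwards [Ioi_mem_nhds h3] with ψ hψ
    rw [linkf_eq]
    unfold lEE
    rw [if_neg (not_le.2 hψ)]

theorem linkf_le_Rp {φ : ℝ} (h1 : arctan ar < φ) (h2 : φ < π + arctan al) :
    linkf R al c ar φ ≤ lRp c R :=
  (mm_le_right (h.lD_pos h1.le h2.le).le).trans (h.lD_le φ)

theorem linkf_conc {φ : ℝ} (h1 : arctan ar < φ) (h2 : φ < π + arctan al) :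
    deriv (deriv (linkf R al c ar)) φ + linkf R al c ar φ ≤ 0 := by
  obtain ⟨a, _, _, _, _, ha⟩ := h.linkf_local h1 h2
  have hD := h.lD_pos h1.le h2.le
  have hd : deriv (linkf R al c ar) =ᶠ[𝓝 φ] fun ψ =>
      kapD (lE a ψ / lD c R ψ) * cos (ψ - arctan a) +
        kapE (lE a ψ / lD c R ψ) * (lRp c R * cos (ψ - arctan c)) := by
    have hmem : Ioo (arctan ar) (π + arctan al) ∈ 𝓝 φ := Ioo_mem_nhds h1 h2
    filter_upwards [hmem, ha.eventuallyEq_nhds] with ψ hψ hψ2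
    rw [hψ2.deriv_eq]
    exact (hasDerivAt_mm (hasDerivAt_lE a ψ) (hasDerivAt_lD c R ψ)
      (h.lD_pos hψ.1.le hψ.2.le).ne').deriv
  have h3 := hasDerivAt_mm' (hasDerivAt_lE a φ) (hasDerivAt_lD c R φ) (hasDerivAt_lE' a φ)
    (hasDerivAt_lD' c R φ) hD.ne'
  rw [hd.deriv_eq, h3.deriv, ha.self_of_nhds]
  simp only []
  rw [mm_euler hD.ne']
  have h4 : deriv kapD (lE a φ / lD c R φ) / lD c R φ ≤ 0 :=
    div_nonpos_of_nonpos_of_nonneg (deriv_kapD_nonpos _) hD.le
  have h5 := mul_nonpos_of_nonpos_of_nonneg h4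
    (sq_nonneg (cos (φ - arctan a) - lE a φ / lD c R φ * (lRp c R * cos (φ - arctan c))))
  linarith

theorem linkf_smooth {φ : ℝ} (h1 : arctan ar < φ) (h2 : φ < π + arctan al) :
    ContDiffAt ℝ ∞ (linkf R al c ar) φ := by
  obtain ⟨a, _, _, _, _, ha⟩ := h.linkf_local h1 h2
  exact ContDiffAt.congr_of_eventuallyEq (contDiffAt_mm le_rfl (contDiff_lE a).contDiffAt
    (contDiff_lD c R).contDiffAt (h.lD_pos h1.le h2.le).ne') ha

theorem linkf_pos {φ : ℝ} (h1 : arctan ar < φ) (h2 : φ < π + arctan al) :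
    0 < linkf R al c ar φ := by
  rw [linkf_eq]
  exact mm_pos (h.lEE_pos h1 h2) (h.lD_pos h1.le h2.le)

theorem linkf_low {φ : ℝ} (h1 : arctan ar < φ) (h2 : φ < π + arctan al) :
    deriv (linkf R al c ar) φ ^ 2 + linkf R al c ar φ ^ 2 = lRp c R ^ 2 ∨
      linkf R al c ar φ ≤ 9 / 10 * lRp c R := by
  obtain ⟨a, ha0, ha1, hpos, hEE, ha⟩ := h.linkf_local h1 h2
  have hD := h.lD_pos h1.le h2.le
  rcases lt_or_ge (lE a φ) (3 / 2 * lD c R φ) with h3 | h3
  · right
    -- here `E` is small, so `φ` is close to one of the end points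
    have hR := h.Rp_pos
    have hR1 := h.Rp_lt
    have hle : linkf R al c ar φ ≤ lD c R φ := mm_le_right hD.le
    have hE : lE a φ ≤ 3 / 16 := by
      have := h.lD_le φ
      linarith
    refine hle.trans ?_
    rw [lD_eq, mul_comm]
    refine mul_le_mul_of_nonneg_right ?_ hR.le
    have hpi := pi_gt_three
    rw [lE_eq] at hE hpos
    -- sin (φ - arctan c) ≤ sin (φ - arctan a) + |arctan a - arctan c|
    have hlip : |sin (φ - arctan c) - sin (φ - arctan a)| ≤ |(φ - arctan c) - (φ - arctan a)| := by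
      have := Real.lipschitzWith_sin.dist_le_mul (φ - arctan c) (φ - arctan a)
      rw [Real.dist_eq, Real.dist_eq, NNReal.coe_one, one_mul] at this
      exact this
    have h4 : |(φ - arctan c) - (φ - arctan a)| ≤ 1 / 10 := by
      rw [abs_le]
      constructor <;> linarith [h.arctan_c_lt, h.arctan_c_pos]
    have h5 := (abs_le.1 (hlip.trans h4)).2
    linarith
  · left
    have hx : 3 / 2 ≤ lE a φ / lD c R φ := by
      rw [le_div_iff₀ hD]
      exact h3
    have hE : kapE (lE a φ / lD c R φ) = 1 := by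
      unfold kapE
      rw [kap_of_ge hx, kapD_of_ge hx]
      ring
    have hd : deriv (linkf R al c ar) φ = lRp c R * cos (φ - arctan c) := by
      rw [ha.deriv_eq, (hasDerivAt_mm (hasDerivAt_lE a φ) (hasDerivAt_lD c R φ) hD.ne').deriv,
        kapD_of_ge hx, hE]
      ring
    rw [hd, ha.self_of_nhds]
    simp only []
    rw [mm_of_ge hD h3, lD_eq]
    nlinarith [sin_sq_add_cos_sq (φ - arctan c)]

theorem linkf_right : ∃ δ > 0, ∀ φ, arctan ar ≤ φ → φ < arctan ar + δ →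
    linkf R al c ar φ = sin (φ - arctan ar) := by
  have hpi := pi_gt_three
  have h0 : lE ar (arctan ar) < lD c R (arctan ar) / 2 := by
    rw [lE_eq, sub_self, sin_zero]
    have := h.lD_pos le_rfl (by linarith [h.arctan_ar_lt, h.arctan_al_nonneg])
    linarith
  have hev : ∀ᶠ φ in 𝓝 (arctan ar), lE ar φ < lD c R φ / 2 :=
    (contDiff_lE ar).continuous.continuousAt.eventually_lt
      ((contDiff_lD c R).continuous.div_const 2).continuousAt h0
  obtain ⟨δ, hδ, hb⟩ := Metric.eventually_nhds_iff.1 hev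
  refine ⟨min δ 1, lt_min hδ one_pos, fun φ h1 h2 => ?_⟩
  have h3 : φ < arctan ar + δ := h2.trans_le (by linarith [min_le_left δ 1])
  have h4 : φ < arctan ar + 1 := h2.trans_le (by linarith [min_le_right δ 1])
  have h5 := h.arctan_ar_lt
  have h6 := hb (y := φ) (by rw [Real.dist_eq, abs_lt]; constructor <;> linarith)
  have hD := h.lD_pos h1 (by linarith [h.arctan_al_nonneg])
  rw [linkf_eq]
  unfold lEE
  rw [if_pos (by linarith), mm_of_le hD h6.le, lE_eq]

theorem linkf_left : ∃ δ > 0, ∀ φ, π + arctan al - δ < φ → φ ≤ π + arctan al →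
    linkf R al c ar φ = sin (π + arctan al - φ) := by
  have hpi := pi_gt_three
  have h0 : lE al (π + arctan al) < lD c R (π + arctan al) / 2 := by
    rw [lE_eq, add_sub_cancel_right, sin_pi]
    have := h.lD_pos (φ := π + arctan al) (by linarith [h.arctan_ar_lt, h.arctan_al_nonneg]) le_rfl
    linarith
  have hev : ∀ᶠ φ in 𝓝 (π + arctan al), lE al φ < lD c R φ / 2 :=
    (contDiff_lE al).continuous.continuousAt.eventually_lt
      ((contDiff_lD c R).continuous.div_const 2).continuousAt h0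
  obtain ⟨δ, hδ, hb⟩ := Metric.eventually_nhds_iff.1 hev
  refine ⟨min δ 1, lt_min hδ one_pos, fun φ h1 h2 => ?_⟩
  have h3 : π + arctan al - δ < φ := lt_of_le_of_lt (by linarith [min_le_left δ 1]) h1
  have h4 : π + arctan al - 1 < φ := lt_of_le_of_lt (by linarith [min_le_right δ 1]) h1
  have h5 := h.arctan_al_nonneg
  have h6 := hb (y := φ) (by rw [Real.dist_eq, abs_lt]; constructor <;> linarith)
  have hD := h.lD_pos (by linarith [h.arctan_ar_lt]) h2
  rw [linkf_eq]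
  unfold lEE
  rw [if_neg (by linarith), mm_of_le hD h6.le, lE_eq, ← sin_pi_sub]
  congr 1
  ring

theorem linkf_center : ∀ᶠ φ in 𝓝 (π / 2 + arctan c),
    linkf R al c ar φ = lRp c R * cos (φ - (π / 2 + arctan c)) := by
  have h1 := h.arctan_c_pos
  have h2 := h.arctan_c_lt
  have hmem : Ioo (π / 2 - 1 / 10) (π / 2 + 1 / 5) ∈ 𝓝 (π / 2 + arctan c) :=
    Ioo_mem_nhds (by linarith) (by linarith)
  filter_upwards [hmem] with φ hφ
  rw [h.linkf_mid hφ.1.le hφ.2.le, lD_eq]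
  congr 1
  rw [← cos_sub_pi_div_two]
  congr 1
  ring

theorem profile : Profile (linkf R al c ar) (lRp c R) (arctan ar) (π / 2 + arctan c)
    (π + arctan al) where
  lt1 := by linarith [h.arctan_ar_lt, h.arctan_c_pos, pi_gt_three]
  lt2 := by linarith [h.arctan_al_nonneg, h.arctan_c_lt, pi_gt_three]
  Rp_pos := h.Rp_pos
  Rp_lt := h.Rp_lt
  smooth := fun _ hφ => h.linkf_smooth hφ.1 hφ.2
  pos := fun _ hφ => h.linkf_pos hφ.1 hφ.2
  conc := fun _ hφ => h.linkf_conc hφ.1 hφ.2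
  center := h.linkf_center
  right := h.linkf_right
  left := h.linkf_left
  low := fun _ hφ => h.linkf_low hφ.1 hφ.2

end LinkPar

/-- The data of a link: `η` and the angle `Φ` as functions of the latitude `x`, and
`H = η / cos²` as a function of `sin x`. -/
structure IsLink (R al c ar : ℝ) (η Φ H : ℝ → ℝ) : Prop where
  linkFun : LinkFun (lRp c R) η
  smooth_H : ContDiff ℝ ∞ H
  eta_H : ∀ x ∈ Lat, η x = cos x ^ 2 * H (sin x)
  smooth_Φ : ContDiffOn ℝ ∞ Φ Lat
  hasDerivAt_Φ : ∀ x ∈ Lat, HasDerivAt Φ (lRp c R * Real.exp (η x)) x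
  linkf_Φ : ∀ x ∈ Lat, linkf R al c ar (Φ x) = lRp c R * cos x
  maps : ∀ x ∈ Lat, Φ x ∈ Ioo (arctan ar) (π + arctan al)
  surj : ∀ φ ∈ Ioo (arctan ar) (π + arctan al), ∃ x ∈ Lat, Φ x = φ
  strictMono : StrictMonoOn Φ Lat
  /-- near the pole `x = -π/2`, the right end of the link -/
  pole_r : ∃ x0 : ℝ, 0 < x0 ∧ x0 < π / 2 ∧ ∀ x ∈ Lat, x < -x0 →
    Φ x - arctan ar ∈ Ioo 0 (π / 2) ∧ sin (Φ x - arctan ar) = lRp c R * cos x
  /-- near the pole `x = π/2`, the left end of the link -/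
  pole_l : ∃ x0 : ℝ, 0 < x0 ∧ x0 < π / 2 ∧ ∀ x ∈ Lat, x0 < x →
    π + arctan al - Φ x ∈ Ioo 0 (π / 2) ∧ sin (π + arctan al - Φ x) = lRp c R * cos x
  center : ∀ᶠ x in 𝓝 (0 : ℝ), Φ x = π / 2 + arctan c + x

theorem Profile.latInv_strictMono {f : ℝ → ℝ} {Rp φr φs φl : ℝ} (h : Profile f Rp φr φs φl) :
    StrictMonoOn (latInv f Rp φr φs φl) Lat := by
  intro x hx y hy hxy
  by_contra h1
  have h2 := h.lat_strictMono.monotoneOn (h.latInv_mem hy) (h.latInv_mem hx) (not_lt.1 h1)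
  rw [h.lat_latInv hx, h.lat_latInv hy] at h2
  linarith

theorem Profile.latInv_near {f : ℝ → ℝ} {Rp φr φs φl : ℝ} (h : Profile f Rp φr φs φl) :
    ∀ᶠ x in 𝓝 (0 : ℝ), latInv f Rp φr φs φl x = φs + x := by
  have h1 : Tendsto (fun x : ℝ => φs + x) (𝓝 0) (𝓝 φs) := by
    have : Tendsto (fun x : ℝ => φs + x) (𝓝 0) (𝓝 (φs + 0)) :=
      (continuous_const.add continuous_id).continuousAt
    rwa [add_zero] at this
  filter_upwards [h1.eventually h.lat_center, h1.eventually (isOpen_Ioo.mem_nhds h.φs_mem)]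
    with x hx1 hx2
  exact h.latInv_eq hx2 (by rw [hx1]; ring)

/-- **Part L**: the links. -/
theorem exists_isLink {R al c ar : ℝ} (h0 : 0 ≤ al) (h1 : al < c) (h2 : c < ar)
    (h3 : ar ≤ 1 / 10) (hR : 0 < R) (hR' : R ≤ 1 / 9) : ∃ η Φ H : ℝ → ℝ, IsLink R al c ar η Φ H := by
  have h : LinkPar al c ar R := ⟨h0, h1, h2, h3, hR, hR'⟩
  have hp := h.profile
  refine ⟨latEta (linkf R al c ar) (lRp c R) (arctan ar) (π / 2 + arctan c) (π + arctan al),
    latInv (linkf R al c ar) (lRp c R) (arctan ar) (π / 2 + arctan c) (π + arctan al),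
    latH (linkf R al c ar) (lRp c R) (arctan ar) (π / 2 + arctan c) (π + arctan al), ?_⟩
  exact
    { linkFun := hp.linkFun
      smooth_H := hp.latH_smooth
      eta_H := fun x hx => hp.latH_mul hx
      smooth_Φ := hp.latInv_smoothOn
      hasDerivAt_Φ := fun x hx => hp.hasDerivAt_latInv' hx
      linkf_Φ := fun x hx => hp.f_latInv hx
      maps := fun x hx => hp.latInv_mem hx
      surj := fun φ hφ => ⟨_, hp.lat_mem hφ, hp.latInv_eq hφ rfl⟩
      strictMono := hp.latInv_strictMono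
      pole_r := by
        obtain ⟨x0, h4, h5, h6⟩ := hp.exists_Q_right
        exact ⟨x0, h4, h5, fun x hx hx0 => ⟨(h6 x hx hx0).1, (h6 x hx hx0).2.1⟩⟩
      pole_l := by
        obtain ⟨x0, h4, h5, h6⟩ := hp.exists_Q_left
        exact ⟨x0, h4, h5, fun x hx hx0 => ⟨(h6 x hx hx0).1, (h6 x hx hx0).2.1⟩⟩
      center := hp.latInv_near }

end Pool.Agent.W_MP_654ec6
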