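import Pool.Agent.W_MP_654ec6.L.LatInv

/-!
# Part L, file 4: `η` is `cos² x` times a smooth function of `sin x`

Near the poles `e^{2η} = sin² x / (1 - Rp² cos² x)`, so with `z = sin x`,
`y = z² / (1 - Rp² (1 - z²))` one has `η = (1/2) log y` and `y - 1 = -(1 - z²) (1 - Rp²) /
(1 - Rp² (1 - z²))`, and `log y / (y - 1)` is smooth for `y > 0`.
-/

open scoped ContDiff Topology
open Filter Set Real

namespace Pool.Agent.W_MP_654ec6

/-- `log y / (y - 1)`, smooth on `y > 0`. -/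
noncomputable def logSlope : ℝ → ℝ := dslope Real.log 1

theorem log_eq_logSlope (y : ℝ) : Real.log y = (y - 1) * logSlope y := by
  have h := sub_smul_dslope Real.log 1 y
  rw [Real.log_one, sub_zero, smul_eq_mul] at h
  exact h.symm

theorem logSlope_smooth {y : ℝ} (hy : 0 < y) : ContDiffAt ℝ ∞ logSlope y := by
  unfold logSlope
  rcases eq_or_ne y 1 with h | h
  · rw [h]
    have ha : AnalyticAt ℝ Real.log 1 := analyticAt_log one_pos
    obtain ⟨p, hp⟩ := ha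
    have h2 := hp.has_fpower_series_dslope_fslope
    exact h2.analyticAt.contDiffAt
  · have h1 : dslope Real.log 1 =ᶠ[𝓝 y] fun z => (Real.log z - Real.log 1) / (z - 1) := by
      filter_upwards [isOpen_ne.mem_nhds h] with z hz
      rw [dslope_of_ne _ hz, slope_def_field]
    refine ContDiffAt.congr_of_eventuallyEq ?_ h1
    exact ((contDiffAt_log.2 hy.ne').sub contDiffAt_const).div
      (contDiffAt_id.sub contDiffAt_const) (sub_ne_zero.2 h)

/-- The expression of `η / cos²` near the poles. -/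
noncomputable def poleH (Rp z : ℝ) : ℝ :=
  -(1 - Rp ^ 2) / (2 * (1 - Rp ^ 2 * (1 - z ^ 2))) *
    logSlope (z ^ 2 / (1 - Rp ^ 2 * (1 - z ^ 2)))

theorem poleH_den {Rp z : ℝ} (h0 : 0 < Rp) (h1 : Rp < 1 / 8) :
    0 < 1 - Rp ^ 2 * (1 - z ^ 2) := by
  have h3 : Rp ^ 2 < 1 := by nlinarith
  nlinarith [mul_nonneg (sq_nonneg Rp) (sq_nonneg z)]

theorem poleH_smooth {Rp z : ℝ} (h0 : 0 < Rp) (h1 : Rp < 1 / 8) (hz : z ≠ 0) :
    ContDiffAt ℝ ∞ (poleH Rp) z := by
  have hd := poleH_den h0 h1 (z := z)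
  have hz2 : 0 < z ^ 2 := by positivity
  have hden : ContDiffAt ℝ ∞ (fun z : ℝ => 1 - Rp ^ 2 * (1 - z ^ 2)) z :=
    contDiffAt_const.sub (contDiffAt_const.mul (contDiffAt_const.sub (contDiffAt_id.pow 2)))
  have h2 : ContDiffAt ℝ ∞ (fun z : ℝ => z ^ 2 / (1 - Rp ^ 2 * (1 - z ^ 2))) z :=
    (contDiffAt_id.pow 2).div hden hd.ne'
  have h3 : ContDiffAt ℝ ∞ (logSlope ∘ fun z : ℝ => z ^ 2 / (1 - Rp ^ 2 * (1 - z ^ 2))) z :=
    (logSlope_smooth (div_pos hz2 hd)).comp z h2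
  have h4 : ContDiffAt ℝ ∞ (fun z : ℝ => -(1 - Rp ^ 2) / (2 * (1 - Rp ^ 2 * (1 - z ^ 2)))) z :=
    contDiffAt_const.div (contDiffAt_const.mul hden) (by positivity)
  exact h4.mul h3

theorem poleH_mul {Rp z : ℝ} (h0 : 0 < Rp) (h1 : Rp < 1 / 8) :
    (1 - z ^ 2) * poleH Rp z = 1 / 2 * Real.log (z ^ 2 / (1 - Rp ^ 2 * (1 - z ^ 2))) := by
  have hd := poleH_den h0 h1 (z := z)
  rw [log_eq_logSlope]
  unfold poleH
  have h2 : z ^ 2 / (1 - Rp ^ 2 * (1 - z ^ 2)) - 1 =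
      -(1 - z ^ 2) * (1 - Rp ^ 2) / (1 - Rp ^ 2 * (1 - z ^ 2)) := by
    field_simp
    ring
  rw [h2]
  field_simp

/-- `η / cos²` as a function of `sin x`. -/
noncomputable def latH (f : ℝ → ℝ) (Rp φr φs φl z : ℝ) : ℝ :=
  if |z| < 1 then latEta f Rp φr φs φl (arcsin z) / (1 - z ^ 2) else poleH Rp z

namespace Profile

variable {f : ℝ → ℝ} {Rp φr φs φl : ℝ} (h : Profile f Rp φr φs φl)

include h

/-- Where `Q = 1`, `η` is explicit. -/
theorem eta_of_Q {x : ℝ} (hx : x ∈ Lat)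
    (hQ : deriv f (latInv f Rp φr φs φl x) ^ 2 + f (latInv f Rp φr φs φl x) ^ 2 = 1) :
    latEta f Rp φr φs φl x =
      1 / 2 * Real.log (sin x ^ 2 / (1 - Rp ^ 2 * (1 - sin x ^ 2))) := by
  have hR := h.Rp_pos
  have hR1 := h.Rp_lt
  have hp := h.latInv_deriv_pos hx
  have hd := poleH_den hR hR1 (z := sin x)
  have h1 := h.f_deriv_sq hx
  rw [h.f_latInv hx] at hQ
  have h2 : deriv f (latInv f Rp φr φs φl x) ^ 2 = 1 - Rp ^ 2 * (1 - sin x ^ 2) := by
    have := sin_sq_add_cos_sq x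
    have h3 : cos x ^ 2 = 1 - sin x ^ 2 := by linarith
    rw [← h3]
    linarith
  rw [h2] at h1
  have h4 : sin x ^ 2 / (1 - Rp ^ 2 * (1 - sin x ^ 2)) =
      (deriv (latInv f Rp φr φs φl) x / Rp) ^ 2 := by
    rw [div_pow, div_eq_div_iff hd.ne' (by positivity)]
    linarith
  rw [h4, Real.log_pow]
  unfold latEta
  push_cast
  ring

theorem exists_Q_right : ∃ x0 : ℝ, 0 < x0 ∧ x0 < π / 2 ∧ ∀ x ∈ Lat, x < -x0 →
    latInv f Rp φr φs φl x - φr ∈ Ioo 0 (π / 2) ∧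
    sin (latInv f Rp φr φs φl x - φr) = Rp * cos x ∧
    deriv f (latInv f Rp φr φs φl x) ^ 2 + f (latInv f Rp φr φs φl x) ^ 2 = 1 := by
  obtain ⟨δ1, hδ1, h1⟩ := h.latInv_right
  obtain ⟨δ2, hδ2, h2⟩ := h.Q_right
  have hR := h.Rp_pos
  have hR1 := h.Rp_lt
  have hpi := pi_gt_three
  have hm : 0 < min (min δ1 δ2) 1 := lt_min (lt_min hδ1 hδ2) one_pos
  have hm1 : min (min δ1 δ2) 1 ≤ δ1 := (min_le_left _ _).trans (min_le_left _ _)
  have hm2 : min (min δ1 δ2) 1 ≤ δ2 := (min_le_left _ _).trans (min_le_right _ _)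
  have hm3 : min (min δ1 δ2) 1 ≤ 1 := min_le_right _ _
  refine ⟨π / 2 - min (min δ1 δ2) 1, by linarith, by linarith, fun x hx hx0 => ?_⟩
  have hc : 0 < cos x := cos_pos_of_mem_Ioo hx
  have hc1 : cos x ≤ x + π / 2 := by
    rw [← sin_add_pi_div_two]
    exact sin_le (by linarith [hx.1])
  have hc2 : cos x ≤ 1 := cos_le_one x
  have hi := h1 x hx (by linarith)
  have ha0 : 0 < arcsin (Rp * cos x) := arcsin_pos.2 (mul_pos hR hc)
  have ha1 : arcsin (Rp * cos x) ≤ cos x := by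
    have h3 : Rp * cos x ≤ 2 / π * cos x := by
      refine mul_le_mul_of_nonneg_right ?_ hc.le
      rw [le_div_iff₀ pi_pos]
      nlinarith [pi_lt_four]
    have h4 : Rp * cos x ≤ sin (cos x) := h3.trans (mul_le_sin hc.le (by linarith))
    calc arcsin (Rp * cos x) ≤ arcsin (sin (cos x)) := monotone_arcsin h4
      _ = cos x := arcsin_sin (by linarith) (by linarith)
  rw [hi, add_sub_cancel_left]
  refine ⟨⟨ha0, by linarith⟩, sin_arcsin (by nlinarith) (by nlinarith),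
    h2 _ (by linarith) (by linarith)⟩

theorem exists_Q_left : ∃ x0 : ℝ, 0 < x0 ∧ x0 < π / 2 ∧ ∀ x ∈ Lat, x0 < x →
    φl - latInv f Rp φr φs φl x ∈ Ioo 0 (π / 2) ∧
    sin (φl - latInv f Rp φr φs φl x) = Rp * cos x ∧
    deriv f (latInv f Rp φr φs φl x) ^ 2 + f (latInv f Rp φr φs φl x) ^ 2 = 1 := by
  obtain ⟨δ1, hδ1, h1⟩ := h.latInv_left
  obtain ⟨δ2, hδ2, h2⟩ := h.Q_left
  have hR := h.Rp_pos
  have hR1 := h.Rp_lt
  have hpi := pi_gt_three
  have hm : 0 < min (min δ1 δ2) 1 := lt_min (lt_min hδ1 hδ2) one_pos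
  have hm1 : min (min δ1 δ2) 1 ≤ δ1 := (min_le_left _ _).trans (min_le_left _ _)
  have hm2 : min (min δ1 δ2) 1 ≤ δ2 := (min_le_left _ _).trans (min_le_right _ _)
  have hm3 : min (min δ1 δ2) 1 ≤ 1 := min_le_right _ _
  refine ⟨π / 2 - min (min δ1 δ2) 1, by linarith, by linarith, fun x hx hx0 => ?_⟩
  have hc : 0 < cos x := cos_pos_of_mem_Ioo hx
  have hc1 : cos x ≤ π / 2 - x := by
    rw [← sin_pi_div_two_sub]
    exact sin_le (by linarith [hx.2])
  have hc2 : cos x ≤ 1 := cos_le_one x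
  have hi := h1 x hx (by linarith)
  have ha0 : 0 < arcsin (Rp * cos x) := arcsin_pos.2 (mul_pos hR hc)
  have ha1 : arcsin (Rp * cos x) ≤ cos x := by
    have h3 : Rp * cos x ≤ 2 / π * cos x := by
      refine mul_le_mul_of_nonneg_right ?_ hc.le
      rw [le_div_iff₀ pi_pos]
      nlinarith [pi_lt_four]
    have h4 : Rp * cos x ≤ sin (cos x) := h3.trans (mul_le_sin hc.le (by linarith))
    calc arcsin (Rp * cos x) ≤ arcsin (sin (cos x)) := monotone_arcsin h4
      _ = cos x := arcsin_sin (by linarith) (by linarith)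
  rw [hi, sub_sub_cancel]
  refine ⟨⟨ha0, by linarith⟩, sin_arcsin (by nlinarith) (by nlinarith),
    h2 _ (by linarith) (by linarith)⟩

theorem latH_mul {x : ℝ} (hx : x ∈ Lat) :
    latEta f Rp φr φs φl x = cos x ^ 2 * latH f Rp φr φs φl (sin x) := by
  have hc : 0 < cos x := cos_pos_of_mem_Ioo hx
  have h1 : |sin x| < 1 := by
    rw [abs_lt]
    constructor <;> nlinarith [sin_sq_add_cos_sq x, hc]
  unfold latH
  rw [if_pos h1, arcsin_sin hx.1.le hx.2.le]
  have h2 : 1 - sin x ^ 2 = cos x ^ 2 := by linarith [sin_sq_add_cos_sq x]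
  rw [h2]
  field_simp

theorem arcsin_mem {z : ℝ} (hz : |z| < 1) : arcsin z ∈ Lat := by
  rw [abs_lt] at hz
  exact ⟨neg_pi_div_two_lt_arcsin.2 hz.1, arcsin_lt_pi_div_two.2 hz.2⟩

/-- Near the poles `latH = poleH`. -/
theorem latH_eq_poleH : ∃ z0 : ℝ, 0 < z0 ∧ z0 < 1 ∧ ∀ z : ℝ, z0 < |z| →
    latH f Rp φr φs φl z = poleH Rp z := by
  obtain ⟨x1, hx1, hx1', h1⟩ := h.exists_Q_right
  obtain ⟨x2, hx2, hx2', h2⟩ := h.exists_Q_left
  have hpi := pi_gt_three
  have hm0 : 0 < max x1 x2 := lt_max_of_lt_left hx1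
  have hm1 : max x1 x2 < π / 2 := max_lt hx1' hx2'
  have hs0 : 0 < sin (max x1 x2) := sin_pos_of_pos_of_lt_pi hm0 (by linarith)
  have hs1 : sin (max x1 x2) < 1 := by
    rw [← sin_pi_div_two]
    exact sin_lt_sin_of_lt_of_le_pi_div_two (by linarith) le_rfl hm1
  refine ⟨sin (max x1 x2), hs0, hs1, fun z hz => ?_⟩
  unfold latH
  split_ifs with h3
  · have hmem := h.arcsin_mem h3
    have hz2 : (1 : ℝ) - z ^ 2 ≠ 0 := by
      have : z ^ 2 < 1 := by
        rw [← sq_abs]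
        nlinarith [abs_nonneg z]
      linarith
    have habs : z ∈ Icc (-1 : ℝ) 1 := ⟨(abs_lt.1 h3).1.le, (abs_lt.1 h3).2.le⟩
    have hQ : deriv f (latInv f Rp φr φs φl (arcsin z)) ^ 2 +
        f (latInv f Rp φr φs φl (arcsin z)) ^ 2 = 1 := by
      rcases lt_abs.1 hz with h4 | h4
      · refine (h2 _ hmem ?_).2.2
        have h5 : max x1 x2 < arcsin z := by
          rw [lt_arcsin_iff_sin_lt ⟨by linarith, hm1.le⟩ habs]
          exact h4
        exact (le_max_right _ _).trans_lt h5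
      · refine (h1 _ hmem ?_).2.2
        have h5 : arcsin z < -max x1 x2 := by
          rw [arcsin_lt_iff_lt_sin habs ⟨by linarith, by linarith⟩, sin_neg]
          linarith
        have := le_max_left x1 x2
        linarith
    rw [h.eta_of_Q hmem hQ, sin_arcsin habs.1 habs.2, ← poleH_mul h.Rp_pos h.Rp_lt]
    field_simp
  · rfl

theorem latH_smooth : ContDiff ℝ ∞ (latH f Rp φr φs φl) := by
  obtain ⟨z0, h0, h1, h2⟩ := h.latH_eq_poleH
  rw [contDiff_iff_contDiffAt]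
  intro z
  rcases lt_or_ge |z| 1 with h3 | h3
  · have h4 : latH f Rp φr φs φl =ᶠ[𝓝 z]
        fun z => latEta f Rp φr φs φl (arcsin z) / (1 - z ^ 2) := by
      have h5 : IsOpen {z : ℝ | |z| < 1} := isOpen_lt continuous_abs continuous_const
      filter_upwards [h5.mem_nhds h3] with w hw
      exact if_pos hw
    refine ContDiffAt.congr_of_eventuallyEq ?_ h4
    have habs := abs_lt.1 h3
    have h5 : ContDiffAt ℝ ∞ (latEta f Rp φr φs φl ∘ arcsin) z :=
      (h.latEta_smooth (h.arcsin_mem h3)).comp z (contDiffAt_arcsin habs.1.ne' habs.2.ne)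
    have hz2 : (1 : ℝ) - z ^ 2 ≠ 0 := by
      have : z ^ 2 < 1 := by
        rw [← sq_abs]
        nlinarith [abs_nonneg z]
      linarith
    exact h5.div (contDiffAt_const.sub (contDiffAt_id.pow 2)) hz2
  · have h4 : latH f Rp φr φs φl =ᶠ[𝓝 z] poleH Rp := by
      have h5 : IsOpen {z : ℝ | z0 < |z|} := isOpen_lt continuous_const continuous_abs
      filter_upwards [h5.mem_nhds (show z0 < |z| by linarith)] with w hw
      exact h2 w hw
    refine ContDiffAt.congr_of_eventuallyEq (poleH_smooth h.Rp_pos h.Rp_lt ?_) h4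
    intro hz
    rw [hz, abs_zero] at h3
    linarith

theorem linkFun : LinkFun Rp (latEta f Rp φr φs φl) where
  Rp_pos := h.Rp_pos
  Rp_lt := h.Rp_lt
  smooth := fun _ hx => (h.latEta_smooth hx).contDiffWithinAt
  eta1 := fun _ hx => h.eta1 hx
  eta2 := fun _ hx => h.eta2 hx
  lower := fun _ hx => h.eta_lower hx
  upper := fun _ hx => h.eta_upper hx
  pole := by
    obtain ⟨C, hC⟩ := (isCompact_Icc (a := (-1 : ℝ)) (b := 1)).exists_bound_of_continuousOn
      h.latH_smooth.continuous.continuousOn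
    refine ⟨C, fun x hx => ?_⟩
    rw [h.latH_mul hx, abs_mul, abs_of_nonneg (sq_nonneg (cos x)), mul_comm]
    have := hC (sin x) ⟨neg_one_le_sin x, sin_le_one x⟩
    rw [Real.norm_eq_abs] at this
    exact mul_le_mul_of_nonneg_right this (sq_nonneg _)

end Profile

end Pool.Agent.W_MP_654ec6
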