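import Pool.Agent.W_MP_654ec6.L.Profile

/-!
# Part L, file 3: the inverse of the latitude and the function `η`
-/

open scoped ContDiff Topology
open Filter Set Real

namespace Pool.Agent.W_MP_654ec6

namespace Profile

variable {f : ℝ → ℝ} {Rp φr φs φl : ℝ} (h : Profile f Rp φr φs φl)

include h

theorem latInv_mem {x : ℝ} (hx : x ∈ Lat) : latInv f Rp φr φs φl x ∈ Ioo φr φl :=
  Function.invFunOn_mem (h.lat_surj hx)

theorem lat_latInv {x : ℝ} (hx : x ∈ Lat) : lat f Rp φs (latInv f Rp φr φs φl x) = x :=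
  Function.invFunOn_eq (h.lat_surj hx)

theorem latInv_eq {x φ : ℝ} (hφ : φ ∈ Ioo φr φl) (hx : lat f Rp φs φ = x) :
    latInv f Rp φr φs φl x = φ := by
  have hx' : x ∈ Lat := hx ▸ h.lat_mem hφ
  exact h.lat_strictMono.injOn (h.latInv_mem hx') hφ (by rw [h.lat_latInv hx', hx])

theorem f_latInv {x : ℝ} (hx : x ∈ Lat) : f (latInv f Rp φr φs φl x) = Rp * cos x := by
  have h1 := h.cos_lat (h.latInv_mem hx)
  rw [h.lat_latInv hx] at h1
  rw [h1]
  field_simp [h.Rp_pos.ne']

theorem latInv_smooth {x : ℝ} (hx : x ∈ Lat) : ContDiffAt ℝ ∞ (latInv f Rp φr φs φl) x := by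
  set φ := latInv f Rp φr φs φl x with hφdef
  have hφ := h.latInv_mem hx
  rw [← hφdef] at hφ
  have hlx : lat f Rp φs φ = x := h.lat_latInv hx
  have hs := h.lat_smooth hφ
  have hne := (h.lat_deriv_pos hφ).ne'
  have hd : HasFDerivAt (lat f Rp φs)
      ((ContinuousLinearEquiv.unitsEquivAut ℝ (Units.mk0 _ hne) : ℝ ≃L[ℝ] ℝ) : ℝ →L[ℝ] ℝ) φ := by
    have h1 := ((hs.differentiableAt (by simp)).hasDerivAt).hasFDerivAt
    refine h1.congr_fderiv ?_
    ext
    simp
  have hli := hs.to_localInverse hd (by simp)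
  rw [hlx] at hli
  refine hli.congr_of_eventuallyEq ?_
  have hcont : ContinuousAt (hs.localInverse hd (by simp)) x := hli.continuousAt
  have hval : hs.localInverse hd (by simp) x = φ := by
    have h2 := hs.localInverse_apply_image (hf' := hd) (by simp)
    rwa [hlx] at h2
  have hmem : ∀ᶠ y in 𝓝 x, hs.localInverse hd (by simp) y ∈ Ioo φr φl := by
    refine hcont.eventually ?_
    rw [hval]
    exact isOpen_Ioo.mem_nhds hφ
  have hright : ∀ᶠ y in 𝓝 x, lat f Rp φs (hs.localInverse hd (by simp) y) = y := by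
    have h3 := (hs.hasStrictFDerivAt' hd (by simp)).eventually_right_inverse
    rw [hlx] at h3
    exact h3
  filter_upwards [hmem, hright] with y hy1 hy2
  exact h.latInv_eq hy1 hy2

theorem latInv_smoothOn : ContDiffOn ℝ ∞ (latInv f Rp φr φs φl) Lat :=
  fun _ hx => (h.latInv_smooth hx).contDiffWithinAt

theorem hasDerivAt_latInv {x : ℝ} (hx : x ∈ Lat) :
    HasDerivAt (latInv f Rp φr φs φl) (deriv (latInv f Rp φr φs φl) x) x :=
  ((h.latInv_smooth hx).differentiableAt (by simp)).hasDerivAt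

theorem latInv_deriv_mul {x : ℝ} (hx : x ∈ Lat) :
    deriv (lat f Rp φs) (latInv f Rp φr φs φl x) * deriv (latInv f Rp φr φs φl) x = 1 := by
  have hm := h.latInv_mem hx
  have h1 := (((h.lat_smooth hm).differentiableAt (by simp)).hasDerivAt).comp x
    (h.hasDerivAt_latInv hx)
  have h2 : (lat f Rp φs ∘ latInv f Rp φr φs φl) =ᶠ[𝓝 x] id := by
    filter_upwards [isOpen_Ioo.mem_nhds hx] with y hy
    exact h.lat_latInv hy
  rw [← h1.deriv, h2.deriv_eq, deriv_id]

theorem latInv_deriv_pos {x : ℝ} (hx : x ∈ Lat) : 0 < deriv (latInv f Rp φr φs φl) x := by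
  have h1 := h.lat_deriv_pos (h.latInv_mem hx)
  have h2 := h.latInv_deriv_mul hx
  by_contra h3
  have := mul_nonpos_of_nonneg_of_nonpos h1.le (not_lt.1 h3)
  linarith

theorem exp_latEta {x : ℝ} (hx : x ∈ Lat) :
    Real.exp (latEta f Rp φr φs φl x) = deriv (latInv f Rp φr φs φl) x / Rp := by
  unfold latEta
  exact Real.exp_log (div_pos (h.latInv_deriv_pos hx) h.Rp_pos)

theorem hasDerivAt_latInv' {x : ℝ} (hx : x ∈ Lat) :
    HasDerivAt (latInv f Rp φr φs φl) (Rp * Real.exp (latEta f Rp φr φs φl x)) x := by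
  rw [h.exp_latEta hx, mul_div_cancel₀ _ h.Rp_pos.ne']
  exact h.hasDerivAt_latInv hx

theorem latInv_smooth_deriv {x : ℝ} (hx : x ∈ Lat) :
    ContDiffAt ℝ ∞ (deriv (latInv f Rp φr φs φl)) x := by
  have h2 := (contDiffOn_infty_iff_deriv_of_isOpen isOpen_Ioo).1 h.latInv_smoothOn
  exact h2.2.contDiffAt (isOpen_Ioo.mem_nhds hx)

theorem latEta_smooth {x : ℝ} (hx : x ∈ Lat) : ContDiffAt ℝ ∞ (latEta f Rp φr φs φl) x := by
  have h1 := (h.latInv_smooth_deriv hx).div_const Rp
  exact h1.log (div_pos (h.latInv_deriv_pos hx) h.Rp_pos).ne'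

/-- First derivative of `f ∘ Φ = Rp cos`. -/
theorem f_deriv_latInv {x : ℝ} (hx : x ∈ Lat) :
    deriv f (latInv f Rp φr φs φl x) * deriv (latInv f Rp φr φs φl) x = -(Rp * sin x) := by
  have h1 := (h.hasDerivAt (h.latInv_mem hx)).comp x (h.hasDerivAt_latInv hx)
  have h2 : (f ∘ latInv f Rp φr φs φl) =ᶠ[𝓝 x] fun y => Rp * cos y := by
    filter_upwards [isOpen_Ioo.mem_nhds hx] with y hy
    exact h.f_latInv hy
  rw [← h1.deriv, h2.deriv_eq, ((hasDerivAt_cos x).const_mul Rp).deriv]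
  ring

/-- Second derivative of `f ∘ Φ = Rp cos`. -/
theorem f_deriv2_latInv {x : ℝ} (hx : x ∈ Lat) :
    deriv (deriv f) (latInv f Rp φr φs φl x) * deriv (latInv f Rp φr φs φl) x ^ 2 +
      deriv f (latInv f Rp φr φs φl x) * deriv (deriv (latInv f Rp φr φs φl)) x
      = -(Rp * cos x) := by
  have h0 : HasDerivAt (deriv (latInv f Rp φr φs φl)) (deriv (deriv (latInv f Rp φr φs φl)) x) x :=
    ((h.latInv_smooth_deriv hx).differentiableAt (by simp)).hasDerivAt
  have h1 := ((h.hasDerivAt' (h.latInv_mem hx)).comp x (h.hasDerivAt_latInv hx)).mul h0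
  have h2 : ((deriv f ∘ latInv f Rp φr φs φl) * deriv (latInv f Rp φr φs φl)) =ᶠ[𝓝 x]
      fun y => -(Rp * sin y) := by
    filter_upwards [isOpen_Ioo.mem_nhds hx] with y hy
    exact h.f_deriv_latInv hy
  have h3 := h1.deriv
  have h4 : HasDerivAt (fun y => -(Rp * sin y)) (-(Rp * cos x)) x :=
    ((hasDerivAt_sin x).const_mul Rp).neg
  rw [h2.deriv_eq, h4.deriv] at h3
  rw [h3]
  simp only [Function.comp_apply]
  ring

theorem latEta_deriv_mul {x : ℝ} (hx : x ∈ Lat) :
    deriv (latEta f Rp φr φs φl) x * deriv (latInv f Rp φr φs φl) x =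
      deriv (deriv (latInv f Rp φr φs φl)) x := by
  have h0 : HasDerivAt (deriv (latInv f Rp φr φs φl)) (deriv (deriv (latInv f Rp φr φs φl)) x) x :=
    ((h.latInv_smooth_deriv hx).differentiableAt (by simp)).hasDerivAt
  have hp := h.latInv_deriv_pos hx
  have hR := h.Rp_pos
  have h1 : HasDerivAt (latEta f Rp φr φs φl)
      (deriv (deriv (latInv f Rp φr φs φl)) x / Rp / (deriv (latInv f Rp φr φs φl) x / Rp)) x :=
    (h0.div_const Rp).log (div_pos hp hR).ne'
  rw [h1.deriv]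
  field_simp

/-- The key relation: `Rp cos x (1 - η' tan x) = - f'' Φ'²`. -/
theorem key_eta {x : ℝ} (hx : x ∈ Lat) :
    Rp * cos x * (1 - deriv (latEta f Rp φr φs φl) x * tan x) =
      -(deriv (deriv f) (latInv f Rp φr φs φl x) * deriv (latInv f Rp φr φs φl) x ^ 2) := by
  have hc : 0 < cos x := cos_pos_of_mem_Ioo hx
  have h1 := h.f_deriv_latInv hx
  have h2 := h.f_deriv2_latInv hx
  rw [← h.latEta_deriv_mul hx] at h2
  rw [tan_eq_sin_div_cos]
  have h3 : Rp * cos x * (1 - deriv (latEta f Rp φr φs φl) x * (sin x / cos x)) =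
      Rp * cos x - Rp * sin x * deriv (latEta f Rp φr φs φl) x := by
    field_simp
  rw [h3]
  linear_combination h2 - deriv (latEta f Rp φr φs φl) x * h1

theorem eta1 {x : ℝ} (hx : x ∈ Lat) :
    Rp ^ 2 * Real.exp (2 * latEta f Rp φr φs φl x) ≤
      1 - deriv (latEta f Rp φr φs φl) x * tan x := by
  have hc : 0 < cos x := cos_pos_of_mem_Ioo hx
  have hR := h.Rp_pos
  have h1 := h.key_eta hx
  have h2 := h.conc _ (h.latInv_mem hx)
  have h3 : Real.exp (2 * latEta f Rp φr φs φl x) = (deriv (latInv f Rp φr φs φl) x / Rp) ^ 2 := by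
    rw [← h.exp_latEta hx, ← Real.exp_nat_mul]
    norm_num
  have h4 : Rp ^ 2 * (deriv (latInv f Rp φr φs φl) x / Rp) ^ 2 =
      deriv (latInv f Rp φr φs φl) x ^ 2 := by
    field_simp
  rw [h3, h4]
  have h5 : Rp * cos x * deriv (latInv f Rp φr φs φl) x ^ 2 ≤
      Rp * cos x * (1 - deriv (latEta f Rp φr φs φl) x * tan x) := by
    rw [h1, ← h.f_latInv hx]
    linarith [mul_nonneg (neg_nonneg.2 h2) (sq_nonneg (deriv (latInv f Rp φr φs φl) x))]
  exact le_of_mul_le_mul_left h5 (mul_pos hR hc)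

/-- `f'² Φ'² = Rp² sin²`. -/
theorem f_deriv_sq {x : ℝ} (hx : x ∈ Lat) :
    deriv f (latInv f Rp φr φs φl x) ^ 2 * deriv (latInv f Rp φr φs φl) x ^ 2 =
      Rp ^ 2 * sin x ^ 2 := by
  have h1 := h.f_deriv_latInv hx
  rw [← mul_pow, h1]
  ring

theorem eta2 {x : ℝ} (hx : x ∈ Lat) : Rp ^ 2 * cos x ^ 2 ≤
    1 - Real.exp (-2 * latEta f Rp φr φs φl x) * sin x ^ 2 := by
  have hR := h.Rp_pos
  have hp := h.latInv_deriv_pos hx
  have h3 : Real.exp (-2 * latEta f Rp φr φs φl x) =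
      (Rp / deriv (latInv f Rp φr φs φl) x) ^ 2 := by
    have h4 : Rp / deriv (latInv f Rp φr φs φl) x = Real.exp (-latEta f Rp φr φs φl x) := by
      rw [Real.exp_neg, h.exp_latEta hx, inv_div]
    rw [h4, ← Real.exp_nat_mul]
    norm_num
  have h5 : (Rp / deriv (latInv f Rp φr φs φl) x) ^ 2 * sin x ^ 2 =
      deriv f (latInv f Rp φr φs φl x) ^ 2 := by
    have h6 := h.f_deriv_sq hx
    field_simp
    linarith
  have h7 := h.Q_le (h.latInv_mem hx)
  rw [h.f_latInv hx] at h7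
  rw [h3, h5]
  rw [mul_pow] at h7
  linarith

theorem latInv_center : latInv f Rp φr φs φl 0 = φs :=
  h.latInv_eq h.φs_mem (by rw [h.lat_center.self_of_nhds, sub_self])

theorem latInv_deriv_center : deriv (latInv f Rp φr φs φl) 0 = 1 := by
  have hx : (0 : ℝ) ∈ Lat := ⟨by linarith [pi_pos], by linarith [pi_pos]⟩
  have h1 := h.latInv_deriv_mul hx
  have h2 : lat f Rp φs =ᶠ[𝓝 φs] fun ψ => ψ - φs := h.lat_center
  have h3 : deriv (lat f Rp φs) φs = 1 := by
    rw [h2.deriv_eq]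
    simp
  rwa [h.latInv_center, h3, one_mul] at h1

/-- `Φ' ≤ 1`. -/
theorem latInv_deriv_le {x : ℝ} (hx : x ∈ Lat) : deriv (latInv f Rp φr φs φl) x ≤ 1 := by
  rcases eq_or_ne x 0 with h0 | h0
  · rw [h0, h.latInv_deriv_center]
  have hR := h.Rp_pos
  have hp := h.latInv_deriv_pos hx
  have hs : 0 < sin x ^ 2 := by
    have : sin x ≠ 0 := fun hs => h0 <| by
      have := (sin_eq_zero_iff_of_lt_of_lt (by linarith [hx.1, pi_pos])
        (by linarith [hx.2, pi_pos])).1 hs
      exact this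
    positivity
  have h1 := h.f_deriv_sq hx
  have h2 := h.Q_ge (h.latInv_mem hx)
  rw [h.f_latInv hx] at h2
  have h3 : Rp ^ 2 * sin x ^ 2 ≤ deriv f (latInv f Rp φr φs φl x) ^ 2 := by
    have h31 : Rp ^ 2 * sin x ^ 2 + (Rp * cos x) ^ 2 = Rp ^ 2 := by
      rw [mul_pow, ← mul_add, sin_sq_add_cos_sq, mul_one]
    linarith
  have h4 : 0 < Rp ^ 2 * sin x ^ 2 := by positivity
  by_contra h5
  have h6 : 1 < deriv (latInv f Rp φr φs φl) x ^ 2 := one_lt_pow₀ (not_le.1 h5) two_ne_zero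
  have h7 := mul_lt_mul_of_pos_left h6 (h4.trans_le h3)
  rw [mul_one, h1] at h7
  exact absurd h3 (not_le.2 h7)

theorem eta_upper {x : ℝ} (hx : x ∈ Lat) : latEta f Rp φr φs φl x ≤ Real.log (1 / Rp) := by
  unfold latEta
  exact Real.log_le_log (div_pos (h.latInv_deriv_pos hx) h.Rp_pos)
    (div_le_div_of_nonneg_right (h.latInv_deriv_le hx) h.Rp_pos.le)

theorem eta_lower {x : ℝ} (hx : x ∈ Lat) : -1 ≤ latEta f Rp φr φs φl x := by
  have hR := h.Rp_pos
  have hR1 := h.Rp_lt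
  have hp := h.latInv_deriv_pos hx
  unfold latEta
  rw [Real.le_log_iff_exp_le (div_pos hp hR), le_div_iff₀ hR]
  have he : Real.exp (-1) < 0.3678794412 := Real.exp_neg_one_lt_d9
  have he0 := Real.exp_pos (-1)
  have h1 : 2 / 5 * Rp ≤ deriv (latInv f Rp φr φs φl) x := by
    rcases eq_or_ne x 0 with h0 | h0
    · rw [h0, h.latInv_deriv_center]
      linarith
    have hsq := h.f_deriv_sq hx
    have hfx := h.f_latInv hx
    have hs : 0 < sin x ^ 2 := by
      have : sin x ≠ 0 := fun hs => h0 <| by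
        have := (sin_eq_zero_iff_of_lt_of_lt (by linarith [hx.1, pi_pos])
          (by linarith [hx.2, pi_pos])).1 hs
        exact this
      positivity
    rcases h.low _ (h.latInv_mem hx) with h2 | h2
    · have h3 : deriv f (latInv f Rp φr φs φl x) ^ 2 = Rp ^ 2 * sin x ^ 2 := by
        rw [hfx] at h2
        linear_combination h2 - Rp ^ 2 * sin_sq_add_cos_sq x
      rw [h3] at hsq
      have h4 : deriv (latInv f Rp φr φs φl) x ^ 2 = 1 := by
        have h5 : 0 < Rp ^ 2 * sin x ^ 2 := by positivity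
        exact mul_left_cancel₀ h5.ne' (by rw [hsq, mul_one])
      have h5 : 1 ≤ deriv (latInv f Rp φr φs φl) x :=
        ((pow_eq_one_iff_of_nonneg hp.le two_ne_zero).1 h4).ge
      linarith
    · rw [hfx] at h2
      have hc : 0 < cos x := cos_pos_of_mem_Ioo hx
      have hc2 : cos x ≤ 9 / 10 :=
        le_of_mul_le_mul_left (h2.trans_eq (mul_comm _ _)) hR
      have hs2 : 19 / 100 ≤ sin x ^ 2 := by
        have hcc : cos x ^ 2 ≤ (9 / 10) ^ 2 := pow_le_pow_left₀ hc.le hc2 2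
        linarith [sin_sq_add_cos_sq x]
      have hQ := h.Q_le (h.latInv_mem hx)
      have h6 : deriv f (latInv f Rp φr φs φl x) ^ 2 ≤ 1 := by
        linarith [sq_nonneg (f (latInv f Rp φr φs φl x))]
      have h7 : Rp ^ 2 * sin x ^ 2 ≤ deriv (latInv f Rp φr φs φl) x ^ 2 := by
        rw [← hsq]
        exact mul_le_of_le_one_left (sq_nonneg _) h6
      by_contra h8
      have h9 := not_le.1 h8
      have h10 : deriv (latInv f Rp φr φs φl) x ^ 2 < (2 / 5 * Rp) ^ 2 :=
        pow_lt_pow_left₀ h9 hp.le two_ne_zero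
      have h11 := mul_le_mul_of_nonneg_left hs2 (sq_nonneg Rp)
      rw [mul_pow] at h10
      linarith [pow_pos hR 2]
  linarith [mul_le_mul_of_nonneg_right he.le hR.le]

/-! ## The poles -/

theorem latInv_right : ∃ δ > 0, ∀ x ∈ Lat, x < -(π / 2) + δ →
    latInv f Rp φr φs φl x = φr + arcsin (Rp * cos x) := by
  obtain ⟨δ, hδ, hf⟩ := h.right
  have hR := h.Rp_pos
  have hR1 := h.Rp_lt
  have hm : 0 < min δ (φs - φr) := lt_min hδ (by linarith [h.lt1])
  refine ⟨min 1 (min δ (φs - φr)), lt_min one_pos hm, fun x hx hx2 => ?_⟩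
  have hpi := pi_gt_three
  have hx3 : x < -(π / 2) + 1 := hx2.trans_le (by linarith [min_le_left 1 (min δ (φs - φr))])
  have hx4 : x < -(π / 2) + min δ (φs - φr) :=
    hx2.trans_le (by linarith [min_le_right 1 (min δ (φs - φr))])
  have hc : 0 < cos x := cos_pos_of_mem_Ioo hx
  have hc1 : cos x ≤ x + π / 2 := by
    have h1 : cos x = sin (x + π / 2) := (sin_add_pi_div_two x).symm
    rw [h1]
    exact sin_le (by linarith [hx.1])
  have hc2 : cos x ≤ 1 := cos_le_one x
  have ha0 : 0 < arcsin (Rp * cos x) := arcsin_pos.2 (mul_pos hR hc)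
  have ha1 : arcsin (Rp * cos x) ≤ cos x := by
    have h1 : Rp * cos x ≤ 2 / π * cos x := by
      refine mul_le_mul_of_nonneg_right ?_ hc.le
      rw [le_div_iff₀ pi_pos]
      linarith [mul_lt_mul'' hR1 pi_lt_four hR.le pi_pos.le]
    have h2 : Rp * cos x ≤ sin (cos x) :=
      h1.trans (mul_le_sin hc.le (by linarith))
    calc arcsin (Rp * cos x) ≤ arcsin (sin (cos x)) := monotone_arcsin h2
      _ = cos x := arcsin_sin (by linarith) (by linarith)
  have ha2 : arcsin (Rp * cos x) < min δ (φs - φr) := by linarith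
  have ha3 := ha2.trans_le (min_le_left _ _)
  have ha4 := ha2.trans_le (min_le_right _ _)
  have hmem : φr + arcsin (Rp * cos x) ∈ Ioo φr φl := ⟨by linarith, by linarith [h.lt2]⟩
  refine h.latInv_eq hmem (h.lat_eq_of_neg (by linarith) hx (by linarith) ?_)
  rw [hf _ (by linarith) (by linarith), add_sub_cancel_left,
    sin_arcsin (by linarith [mul_pos hR hc]) (mul_le_one₀ (by linarith) hc.le hc2)]

theorem latInv_left : ∃ δ > 0, ∀ x ∈ Lat, π / 2 - δ < x →
    latInv f Rp φr φs φl x = φl - arcsin (Rp * cos x) := by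
  obtain ⟨δ, hδ, hf⟩ := h.left
  have hR := h.Rp_pos
  have hR1 := h.Rp_lt
  have hm : 0 < min δ (φl - φs) := lt_min hδ (by linarith [h.lt2])
  refine ⟨min 1 (min δ (φl - φs)), lt_min one_pos hm, fun x hx hx2 => ?_⟩
  have hpi := pi_gt_three
  have hx3 : π / 2 - 1 < x := lt_of_le_of_lt (by linarith [min_le_left 1 (min δ (φl - φs))]) hx2
  have hx4 : π / 2 - min δ (φl - φs) < x :=
    lt_of_le_of_lt (by linarith [min_le_right 1 (min δ (φl - φs))]) hx2
  have hc : 0 < cos x := cos_pos_of_mem_Ioo hx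
  have hc1 : cos x ≤ π / 2 - x := by
    rw [← sin_pi_div_two_sub]
    exact sin_le (by linarith [hx.2])
  have hc2 : cos x ≤ 1 := cos_le_one x
  have ha0 : 0 < arcsin (Rp * cos x) := arcsin_pos.2 (mul_pos hR hc)
  have ha1 : arcsin (Rp * cos x) ≤ cos x := by
    have h1 : Rp * cos x ≤ 2 / π * cos x := by
      refine mul_le_mul_of_nonneg_right ?_ hc.le
      rw [le_div_iff₀ pi_pos]
      linarith [mul_lt_mul'' hR1 pi_lt_four hR.le pi_pos.le]
    have h2 : Rp * cos x ≤ sin (cos x) :=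
      h1.trans (mul_le_sin hc.le (by linarith))
    calc arcsin (Rp * cos x) ≤ arcsin (sin (cos x)) := monotone_arcsin h2
      _ = cos x := arcsin_sin (by linarith) (by linarith)
  have ha2 : arcsin (Rp * cos x) < min δ (φl - φs) := by linarith
  have ha3 := ha2.trans_le (min_le_left _ _)
  have ha4 := ha2.trans_le (min_le_right _ _)
  have hmem : φl - arcsin (Rp * cos x) ∈ Ioo φr φl := ⟨by linarith [h.lt1], by linarith⟩
  refine h.latInv_eq hmem (h.lat_eq_of_pos (by linarith) hx (by linarith) ?_)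
  rw [hf _ (by linarith) (by linarith), sub_sub_cancel,
    sin_arcsin (by linarith [mul_pos hR hc]) (mul_le_one₀ (by linarith) hc.le hc2)]

end Profile

end Pool.Agent.W_MP_654ec6
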