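import Pool.Agent.W_MP_654ec6.D.Defs

/-!
# Part L, file 2: the latitude of a profile

A profile is a smooth function `f > 0` on `(φ_r, φ_l)` with `f'' + f ≤ 0`, equal to
`sin(φ - φ_r)` near `φ_r`, to `sin(φ_l - φ)` near `φ_l` and to `Rp cos(φ - φ_s)` near `φ_s`.
The latitude `x ∈ (-π/2, π/2)` is given by `cos x = f / Rp`, and `Φ` is the inverse function; with
`Φ' = Rp e^η` one has `dφ² + f² dσ² = Rp² (e^{2η} dx² + cos² x dσ²)`.
-/

open scoped ContDiff Topology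
open Filter Set Real

namespace Pool.Agent.W_MP_654ec6

/-- The profiles. -/
structure Profile (f : ℝ → ℝ) (Rp φr φs φl : ℝ) : Prop where
  lt1 : φr < φs
  lt2 : φs < φl
  Rp_pos : 0 < Rp
  Rp_lt : Rp < 1 / 8
  smooth : ∀ φ ∈ Ioo φr φl, ContDiffAt ℝ ∞ f φ
  pos : ∀ φ ∈ Ioo φr φl, 0 < f φ
  conc : ∀ φ ∈ Ioo φr φl, deriv (deriv f) φ + f φ ≤ 0
  center : ∀ᶠ φ in 𝓝 φs, f φ = Rp * cos (φ - φs)
  right : ∃ δ > 0, ∀ φ, φr ≤ φ → φ < φr + δ → f φ = sin (φ - φr)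
  left : ∃ δ > 0, ∀ φ, φl - δ < φ → φ ≤ φl → f φ = sin (φl - φ)
  low : ∀ φ ∈ Ioo φr φl, deriv f φ ^ 2 + f φ ^ 2 = Rp ^ 2 ∨ f φ ≤ 9 / 10 * Rp

namespace Profile

variable {f : ℝ → ℝ} {Rp φr φs φl : ℝ} (h : Profile f Rp φr φs φl)

include h

theorem φs_mem : φs ∈ Ioo φr φl := ⟨h.lt1, h.lt2⟩

theorem smooth_deriv {φ : ℝ} (hφ : φ ∈ Ioo φr φl) : ContDiffAt ℝ ∞ (deriv f) φ := by
  have h1 : ContDiffOn ℝ ∞ f (Ioo φr φl) := fun x hx => (h.smooth x hx).contDiffWithinAt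
  have h2 := (contDiffOn_infty_iff_deriv_of_isOpen isOpen_Ioo).1 h1
  exact h2.2.contDiffAt (isOpen_Ioo.mem_nhds hφ)

theorem hasDerivAt {φ : ℝ} (hφ : φ ∈ Ioo φr φl) : HasDerivAt f (deriv f φ) φ :=
  ((h.smooth φ hφ).differentiableAt (by simp)).hasDerivAt

theorem hasDerivAt' {φ : ℝ} (hφ : φ ∈ Ioo φr φl) :
    HasDerivAt (deriv f) (deriv (deriv f) φ) φ :=
  ((h.smooth_deriv hφ).differentiableAt (by simp)).hasDerivAt

theorem center_eq : f φs = Rp := by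
  have := h.center.self_of_nhds
  rw [this]
  simp

theorem center_deriv : deriv f φs = 0 := by
  have h1 : f =ᶠ[𝓝 φs] fun φ => Rp * cos (φ - φs) := h.center
  rw [h1.deriv_eq]
  have h2 : HasDerivAt (fun φ => Rp * cos (φ - φs)) (Rp * -sin (φs - φs)) φs :=
    (((hasDerivAt_id φs).sub_const φs).cos.congr_deriv (by simp)).const_mul Rp
  rw [h2.deriv]
  simp

theorem deriv_strictAnti : StrictAntiOn (deriv f) (Ioo φr φl) := by
  refine strictAntiOn_of_deriv_neg (convex_Ioo _ _)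
    (fun φ hφ => (h.hasDerivAt' hφ).continuousAt.continuousWithinAt) fun φ hφ => ?_
  rw [interior_Ioo] at hφ
  have h1 := h.conc φ hφ
  have h2 := h.pos φ hφ
  linarith

theorem deriv_pos {φ : ℝ} (h1 : φr < φ) (h2 : φ < φs) : 0 < deriv f φ := by
  have := h.deriv_strictAnti ⟨h1, h2.trans h.lt2⟩ h.φs_mem h2
  rwa [h.center_deriv] at this

theorem deriv_neg {φ : ℝ} (h1 : φs < φ) (h2 : φ < φl) : deriv f φ < 0 := by
  have := h.deriv_strictAnti h.φs_mem ⟨h.lt1.trans h1, h2⟩ h1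
  rwa [h.center_deriv] at this

theorem strictMono_left : StrictMonoOn f (Ioc φr φs) := by
  refine strictMonoOn_of_deriv_pos (convex_Ioc _ _)
    (fun φ hφ => (h.hasDerivAt ⟨hφ.1, hφ.2.trans_lt h.lt2⟩).continuousAt.continuousWithinAt)
    fun φ hφ => ?_
  rw [interior_Ioc] at hφ
  exact h.deriv_pos hφ.1 hφ.2

theorem strictAnti_right : StrictAntiOn f (Ico φs φl) := by
  refine strictAntiOn_of_deriv_neg (convex_Ico _ _)
    (fun φ hφ => (h.hasDerivAt ⟨h.lt1.trans_le hφ.1, hφ.2⟩).continuousAt.continuousWithinAt)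
    fun φ hφ => ?_
  rw [interior_Ico] at hφ
  exact h.deriv_neg hφ.1 hφ.2

theorem lt_Rp {φ : ℝ} (hφ : φ ∈ Ioo φr φl) (hne : φ ≠ φs) : f φ < Rp := by
  rw [← h.center_eq]
  rcases lt_or_gt_of_ne hne with h1 | h1
  · exact h.strictMono_left ⟨hφ.1, h1.le⟩ ⟨h.lt1, le_rfl⟩ h1
  · exact h.strictAnti_right ⟨le_rfl, h.lt2⟩ ⟨h1.le, hφ.2⟩ h1

theorem le_Rp {φ : ℝ} (hφ : φ ∈ Ioo φr φl) : f φ ≤ Rp := by
  rcases eq_or_ne φ φs with h1 | h1
  · rw [h1, h.center_eq]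
  · exact (h.lt_Rp hφ h1).le

/-- `Q = f'² + f²`. -/
theorem hasDerivAt_Q {φ : ℝ} (hφ : φ ∈ Ioo φr φl) :
    HasDerivAt (fun φ => deriv f φ ^ 2 + f φ ^ 2)
      (2 * deriv f φ * (deriv (deriv f) φ + f φ)) φ := by
  have h1 := ((h.hasDerivAt' hφ).pow 2).add ((h.hasDerivAt hφ).pow 2)
  refine h1.congr_deriv ?_
  simp only [Nat.cast_ofNat, Nat.add_one_sub_one, pow_one]
  ring

theorem Q_antitone : AntitoneOn (fun φ => deriv f φ ^ 2 + f φ ^ 2) (Ioc φr φs) := by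
  refine antitoneOn_of_deriv_nonpos (convex_Ioc _ _)
    (fun φ hφ => (h.hasDerivAt_Q ⟨hφ.1, hφ.2.trans_lt h.lt2⟩).continuousAt.continuousWithinAt)
    (fun φ hφ => ?_) fun φ hφ => ?_
  · rw [interior_Ioc] at hφ
    exact (h.hasDerivAt_Q ⟨hφ.1, hφ.2.trans h.lt2⟩).differentiableAt.differentiableWithinAt
  · rw [interior_Ioc] at hφ
    rw [(h.hasDerivAt_Q ⟨hφ.1, hφ.2.trans h.lt2⟩).deriv]
    have h1 := h.deriv_pos hφ.1 hφ.2
    have h2 := h.conc φ ⟨hφ.1, hφ.2.trans h.lt2⟩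
    exact mul_nonpos_of_nonneg_of_nonpos (by linarith) h2

theorem Q_monotone : MonotoneOn (fun φ => deriv f φ ^ 2 + f φ ^ 2) (Ico φs φl) := by
  refine monotoneOn_of_deriv_nonneg (convex_Ico _ _)
    (fun φ hφ => (h.hasDerivAt_Q ⟨h.lt1.trans_le hφ.1, hφ.2⟩).continuousAt.continuousWithinAt)
    (fun φ hφ => ?_) fun φ hφ => ?_
  · rw [interior_Ico] at hφ
    exact (h.hasDerivAt_Q ⟨h.lt1.trans hφ.1, hφ.2⟩).differentiableAt.differentiableWithinAt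
  · rw [interior_Ico] at hφ
    rw [(h.hasDerivAt_Q ⟨h.lt1.trans hφ.1, hφ.2⟩).deriv]
    have h1 := h.deriv_neg hφ.1 hφ.2
    have h2 := h.conc φ ⟨h.lt1.trans hφ.1, hφ.2⟩
    exact mul_nonneg_of_nonpos_of_nonpos (by linarith) h2

theorem Q_ge {φ : ℝ} (hφ : φ ∈ Ioo φr φl) : Rp ^ 2 ≤ deriv f φ ^ 2 + f φ ^ 2 := by
  have h0 : deriv f φs ^ 2 + f φs ^ 2 = Rp ^ 2 := by
    rw [h.center_deriv, h.center_eq]
    ring
  rw [← h0]
  rcases le_total φ φs with h1 | h1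
  · exact h.Q_antitone ⟨hφ.1, h1⟩ ⟨h.lt1, le_rfl⟩ h1
  · exact h.Q_monotone ⟨le_rfl, h.lt2⟩ ⟨h1, hφ.2⟩ h1

theorem Q_right : ∃ δ > 0, ∀ φ, φr < φ → φ < φr + δ → deriv f φ ^ 2 + f φ ^ 2 = 1 := by
  obtain ⟨δ, hδ, hf⟩ := h.right
  refine ⟨δ, hδ, fun φ h1 h2 => ?_⟩
  have h3 : f =ᶠ[𝓝 φ] fun φ => sin (φ - φr) := by
    filter_upwards [Ioo_mem_nhds h1 h2] with ψ hψ
    exact hf ψ hψ.1.le hψ.2
  have h4 : HasDerivAt (fun φ => sin (φ - φr)) (cos (φ - φr)) φ :=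
    ((hasDerivAt_id φ).sub_const φr).sin.congr_deriv (by simp)
  rw [h3.deriv_eq, h4.deriv, h3.self_of_nhds]
  exact cos_sq_add_sin_sq _

theorem Q_left : ∃ δ > 0, ∀ φ, φl - δ < φ → φ < φl → deriv f φ ^ 2 + f φ ^ 2 = 1 := by
  obtain ⟨δ, hδ, hf⟩ := h.left
  refine ⟨δ, hδ, fun φ h1 h2 => ?_⟩
  have h3 : f =ᶠ[𝓝 φ] fun φ => sin (φl - φ) := by
    filter_upwards [Ioo_mem_nhds h1 h2] with ψ hψ
    exact hf ψ hψ.1 hψ.2.le
  have h4 : HasDerivAt (fun φ => sin (φl - φ)) (-cos (φl - φ)) φ :=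
    ((hasDerivAt_id φ).const_sub φl).sin.congr_deriv (by simp)
  rw [h3.deriv_eq, h4.deriv, h3.self_of_nhds, neg_sq]
  exact cos_sq_add_sin_sq _

theorem Q_le {φ : ℝ} (hφ : φ ∈ Ioo φr φl) : deriv f φ ^ 2 + f φ ^ 2 ≤ 1 := by
  rcases le_total φ φs with h1 | h1
  · obtain ⟨δ, hδ, hf⟩ := h.Q_right
    obtain ⟨ψ, hψ1, hψ2⟩ := exists_between (show φr < min φ (φr + δ) from lt_min hφ.1 (by linarith))
    have h2 := hψ2.trans_le (min_le_left _ _)
    have h3 := hψ2.trans_le (min_le_right _ _)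
    rw [← hf ψ hψ1 h3]
    exact h.Q_antitone ⟨hψ1, h2.le.trans h1⟩ ⟨hφ.1, h1⟩ h2.le
  · obtain ⟨δ, hδ, hf⟩ := h.Q_left
    obtain ⟨ψ, hψ1, hψ2⟩ := exists_between (show max φ (φl - δ) < φl from max_lt hφ.2 (by linarith))
    have h2 := (le_max_left _ _).trans_lt hψ1
    have h3 := (le_max_right _ _).trans_lt hψ1
    rw [← hf ψ h3 hψ2]
    exact h.Q_monotone ⟨h1, hφ.2⟩ ⟨h1.trans h2.le, hψ2⟩ h2.le

end Profile

/-- The latitude. -/
noncomputable def lat (f : ℝ → ℝ) (Rp φs φ : ℝ) : ℝ :=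
  if φ ≤ φs then -arccos (f φ / Rp) else arccos (f φ / Rp)

namespace Profile

variable {f : ℝ → ℝ} {Rp φr φs φl : ℝ} (h : Profile f Rp φr φs φl)

include h

theorem div_mem {φ : ℝ} (hφ : φ ∈ Ioo φr φl) : f φ / Rp ∈ Ioc (0 : ℝ) 1 :=
  ⟨div_pos (h.pos φ hφ) h.Rp_pos, by rw [div_le_one h.Rp_pos]; exact h.le_Rp hφ⟩

theorem cos_lat {φ : ℝ} (hφ : φ ∈ Ioo φr φl) : cos (lat f Rp φs φ) = f φ / Rp := by
  have h1 := h.div_mem hφ
  unfold lat
  split_ifs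
  · rw [cos_neg, cos_arccos (by linarith [h1.1]) h1.2]
  · rw [cos_arccos (by linarith [h1.1]) h1.2]

theorem lat_mem {φ : ℝ} (hφ : φ ∈ Ioo φr φl) : lat f Rp φs φ ∈ Lat := by
  have h1 := h.div_mem hφ
  have h2 : arccos (f φ / Rp) < π / 2 := arccos_lt_pi_div_two.2 h1.1
  have h3 := arccos_nonneg (f φ / Rp)
  unfold lat Lat
  split_ifs
  · exact ⟨by linarith, by linarith [pi_pos]⟩
  · exact ⟨by linarith [pi_pos], by linarith⟩

theorem lat_neg {φ : ℝ} (h1 : φr < φ) (h2 : φ < φs) : lat f Rp φs φ < 0 := by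
  have hφ : φ ∈ Ioo φr φl := ⟨h1, h2.trans h.lt2⟩
  unfold lat
  rw [if_pos h2.le, neg_lt_zero, arccos_pos, div_lt_one h.Rp_pos]
  exact h.lt_Rp hφ h2.ne

theorem lat_pos {φ : ℝ} (h1 : φs < φ) (h2 : φ < φl) : 0 < lat f Rp φs φ := by
  have hφ : φ ∈ Ioo φr φl := ⟨h.lt1.trans h1, h2⟩
  unfold lat
  rw [if_neg (not_le.2 h1), arccos_pos, div_lt_one h.Rp_pos]
  exact h.lt_Rp hφ h1.ne'

theorem lat_center : ∀ᶠ φ in 𝓝 φs, lat f Rp φs φ = φ - φs := by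
  have h1 : ∀ᶠ φ in 𝓝 φs, φ ∈ Ioo (φs - 1) (φs + 1) :=
    Ioo_mem_nhds (by linarith) (by linarith)
  filter_upwards [h.center, h1] with φ h2 h3
  unfold lat
  have h4 : f φ / Rp = cos (φ - φs) := by rw [h2]; field_simp [h.Rp_pos.ne']
  have hpi := pi_gt_three
  rw [h4]
  split_ifs with h5
  · rw [← cos_neg, arccos_cos (by linarith) (by linarith [h3.1])]
    ring
  · rw [arccos_cos (by linarith [not_le.1 h5]) (by linarith [h3.2])]

theorem lat_smooth {φ : ℝ} (hφ : φ ∈ Ioo φr φl) : ContDiffAt ℝ ∞ (lat f Rp φs) φ := by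
  have hR := h.Rp_pos
  rcases lt_trichotomy φ φs with h1 | h1 | h1
  · have h2 : lat f Rp φs =ᶠ[𝓝 φ] fun ψ => -arccos (f ψ / Rp) := by
      filter_upwards [Iio_mem_nhds h1] with ψ hψ
      exact if_pos (le_of_lt hψ)
    refine ContDiffAt.congr_of_eventuallyEq ?_ h2
    have h3 := h.div_mem hφ
    have h4 : f φ / Rp < 1 := (div_lt_one hR).2 (h.lt_Rp hφ h1.ne)
    have h5 : -1 < f φ / Rp := by linarith [h3.1]
    have h6 : ContDiffAt ℝ ∞ (arccos ∘ fun ψ => f ψ / Rp) φ :=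
      (contDiffAt_arccos (n := ∞) h5.ne' h4.ne).comp φ ((h.smooth φ hφ).div_const Rp)
    exact h6.neg
  · rw [h1]
    have h2 : lat f Rp φs =ᶠ[𝓝 φs] fun ψ => ψ - φs := h.lat_center
    exact ContDiffAt.congr_of_eventuallyEq (contDiffAt_id.sub contDiffAt_const) h2
  · have h2 : lat f Rp φs =ᶠ[𝓝 φ] fun ψ => arccos (f ψ / Rp) := by
      filter_upwards [Ioi_mem_nhds h1] with ψ hψ
      exact if_neg (not_le.2 hψ)
    refine ContDiffAt.congr_of_eventuallyEq ?_ h2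
    have h3 := h.div_mem hφ
    have h4 : f φ / Rp < 1 := (div_lt_one hR).2 (h.lt_Rp hφ h1.ne')
    have h5 : -1 < f φ / Rp := by linarith [h3.1]
    have h6 : ContDiffAt ℝ ∞ (arccos ∘ fun ψ => f ψ / Rp) φ :=
      (contDiffAt_arccos (n := ∞) h5.ne' h4.ne).comp φ ((h.smooth φ hφ).div_const Rp)
    exact h6

theorem lat_deriv_mul {φ : ℝ} (hφ : φ ∈ Ioo φr φl) :
    deriv (lat f Rp φs) φ * (-sin (lat f Rp φs φ)) * Rp = deriv f φ := by
  have h1 := ((h.lat_smooth hφ).differentiableAt (by simp)).hasDerivAt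
  have h2 : HasDerivAt (fun ψ => cos (lat f Rp φs ψ) * Rp)
      (-sin (lat f Rp φs φ) * deriv (lat f Rp φs) φ * Rp) φ := h1.cos.mul_const Rp
  have h3 : (fun ψ => cos (lat f Rp φs ψ) * Rp) =ᶠ[𝓝 φ] f := by
    filter_upwards [isOpen_Ioo.mem_nhds hφ] with ψ hψ
    rw [h.cos_lat hψ, div_mul_cancel₀ _ h.Rp_pos.ne']
  rw [← h3.deriv_eq, h2.deriv]
  ring

theorem lat_deriv_pos {φ : ℝ} (hφ : φ ∈ Ioo φr φl) : 0 < deriv (lat f Rp φs) φ := by
  have h0 := h.lat_deriv_mul hφ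
  have hm := h.lat_mem hφ
  have hR := h.Rp_pos
  rcases lt_trichotomy φ φs with h1 | h1 | h1
  · have h2 := h.deriv_pos hφ.1 h1
    have h3 : sin (lat f Rp φs φ) < 0 :=
      sin_neg_of_neg_of_neg_pi_lt (h.lat_neg hφ.1 h1) (by linarith [hm.1, pi_pos])
    rw [← h0] at h2
    by_contra h4
    have h5 : deriv (lat f Rp φs) φ * (-sin (lat f Rp φs φ)) ≤ 0 :=
      mul_nonpos_of_nonpos_of_nonneg (not_lt.1 h4) (by linarith)
    nlinarith
  · have h2 : lat f Rp φs =ᶠ[𝓝 φs] fun ψ => ψ - φs := h.lat_center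
    rw [h1, h2.deriv_eq]
    simp
  · have h2 := h.deriv_neg h1 hφ.2
    have h3 : 0 < sin (lat f Rp φs φ) :=
      sin_pos_of_pos_of_lt_pi (h.lat_pos h1 hφ.2) (by linarith [hm.2, pi_pos])
    rw [← h0] at h2
    by_contra h4
    have h5 : 0 ≤ deriv (lat f Rp φs) φ * (-sin (lat f Rp φs φ)) :=
      mul_nonneg_of_nonpos_of_nonpos (not_lt.1 h4) (by linarith)
    nlinarith

theorem lat_strictMono : StrictMonoOn (lat f Rp φs) (Ioo φr φl) := by
  refine strictMonoOn_of_deriv_pos (convex_Ioo _ _)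
    (fun φ hφ => (h.lat_smooth hφ).continuousAt.continuousWithinAt) fun φ hφ => ?_
  rw [interior_Ioo] at hφ
  exact h.lat_deriv_pos hφ

theorem lat_eq_of_neg {φ x : ℝ} (h2 : φ ≤ φs) (hx : x ∈ Lat)
    (hx0 : x ≤ 0) (hf : f φ = Rp * cos x) : lat f Rp φs φ = x := by
  unfold lat
  rw [if_pos h2, hf, mul_div_cancel_left₀ _ h.Rp_pos.ne', ← cos_neg,
    arccos_cos (by linarith) (by linarith [hx.1, pi_pos]), neg_neg]

theorem lat_eq_of_pos {φ x : ℝ} (h1 : φs < φ) (hx : x ∈ Lat)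
    (hx0 : 0 ≤ x) (hf : f φ = Rp * cos x) : lat f Rp φs φ = x := by
  unfold lat
  rw [if_neg (not_le.2 h1), hf, mul_div_cancel_left₀ _ h.Rp_pos.ne',
    arccos_cos hx0 (by linarith [hx.2, pi_pos])]

theorem lat_surj {x : ℝ} (hx : x ∈ Lat) : ∃ φ ∈ Ioo φr φl, lat f Rp φs φ = x := by
  have hc : 0 < cos x := cos_pos_of_mem_Ioo hx
  have hR := h.Rp_pos
  rcases lt_trichotomy x 0 with h0 | h0 | h0
  · obtain ⟨δ, hδ, hf⟩ := h.right
    have hc1 : cos x < 1 := by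
      rw [← cos_neg, ← cos_zero]
      exact cos_lt_cos_of_nonneg_of_le_pi le_rfl (by linarith [hx.1, pi_pos]) (by linarith)
    have hε : 0 < min (min δ (φs - φr)) (Rp * cos x) :=
      lt_min (lt_min hδ (by linarith [h.lt1])) (mul_pos hR hc)
    obtain ⟨ε, hε1, hε2⟩ := exists_between hε
    have hεδ := hε2.trans_le ((min_le_left _ _).trans (min_le_left _ _))
    have hεs := hε2.trans_le ((min_le_left _ _).trans (min_le_right _ _))
    have hεR := hε2.trans_le (min_le_right _ _)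
    have h1 : f (φr + ε) ≤ Rp * cos x := by
      rw [hf (φr + ε) (by linarith) (by linarith)]
      have : sin (φr + ε - φr) ≤ ε := by
        rw [add_sub_cancel_left]; exact (sin_lt hε1).le
      linarith
    have h2 : Rp * cos x ≤ f φs := by rw [h.center_eq]; nlinarith
    have hcont : ContinuousOn f (Icc (φr + ε) φs) := fun φ hφ =>
      (h.hasDerivAt ⟨by linarith [hφ.1], hφ.2.trans_lt h.lt2⟩).continuousAt.continuousWithinAt
    obtain ⟨φ, hφ, hφ2⟩ := intermediate_value_Icc (by linarith) hcont ⟨h1, h2⟩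
    refine ⟨φ, ⟨by linarith [hφ.1], hφ.2.trans_lt h.lt2⟩, h.lat_eq_of_neg hφ.2 hx h0.le hφ2⟩
  · refine ⟨φs, h.φs_mem, ?_⟩
    rw [h0]
    have := h.lat_center.self_of_nhds
    rw [this, sub_self]
  · obtain ⟨δ, hδ, hf⟩ := h.left
    have hc1 : cos x < 1 := by
      rw [← cos_zero]
      exact cos_lt_cos_of_nonneg_of_le_pi le_rfl (by linarith [hx.2, pi_pos]) h0
    have hε : 0 < min (min δ (φl - φs)) (Rp * cos x) :=
      lt_min (lt_min hδ (by linarith [h.lt2])) (mul_pos hR hc)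
    obtain ⟨ε, hε1, hε2⟩ := exists_between hε
    have hεδ := hε2.trans_le ((min_le_left _ _).trans (min_le_left _ _))
    have hεs := hε2.trans_le ((min_le_left _ _).trans (min_le_right _ _))
    have hεR := hε2.trans_le (min_le_right _ _)
    have h1 : f (φl - ε) ≤ Rp * cos x := by
      rw [hf (φl - ε) (by linarith) (by linarith)]
      have : sin (φl - (φl - ε)) ≤ ε := by
        rw [sub_sub_cancel]; exact (sin_lt hε1).le
      linarith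
    have h2 : Rp * cos x ≤ f φs := by rw [h.center_eq]; nlinarith
    have hcont : ContinuousOn f (Icc φs (φl - ε)) := fun φ hφ =>
      (h.hasDerivAt ⟨h.lt1.trans_le hφ.1, by linarith [hφ.2]⟩).continuousAt.continuousWithinAt
    obtain ⟨φ, hφ, hφ2⟩ := intermediate_value_Icc' (by linarith) hcont ⟨h1, h2⟩
    have hlt : φs < φ := by
      rcases eq_or_lt_of_le hφ.1 with h3 | h3
      · rw [← h3, h.center_eq] at hφ2
        nlinarith
      · exact h3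
    exact ⟨φ, ⟨h.lt1.trans_le hφ.1, by linarith [hφ.2]⟩, h.lat_eq_of_pos hlt hx h0.le hφ2⟩

end Profile

/-- The inverse of the latitude. -/
noncomputable def latInv (f : ℝ → ℝ) (Rp φr φs φl : ℝ) : ℝ → ℝ :=
  Function.invFunOn (lat f Rp φs) (Ioo φr φl)

/-- The function `η`. -/
noncomputable def latEta (f : ℝ → ℝ) (Rp φr φs φl : ℝ) : ℝ → ℝ := fun x =>
  Real.log (deriv (latInv f Rp φr φs φl) x / Rp)

end Pool.Agent.W_MP_654ec6
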